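import Pool.Agent.H39.OT.M1
import Pool.Agent.H19.OT.SB

/-!
# The high frequencies
-/

set_option autoImplicit false

open Complex MeasureTheory Set Filter

namespace Pool.Agent.H39.OT

open Pool.Agent.H88.OT
open Pool.Agent.H23.GLH (PrimChar)
open Pool.Agent.H28.MZ (ei co Bf V W SS DS Sy PP Mol dv T_VV T_SM)

open scoped Classical in
/-- the summand of the high frequencies -/
noncomputable def hin (π : PrimChar) (Z : ℕ) (u : ℝ) (h k : ℕ) (t : ℝ) (p : ℕ × ℕ) : ℂ :=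
  if Z < rd p.1 p.2 h k then
          co π p.1 * (starRingEnd ℂ) (co π p.2) *
            (((((p.1 : ℝ) * p.2) ^ (-(1 / 2 : ℝ)) * (V ((p.1 : ℝ) * p.2 * (1 / u)) +
              V ((p.1 : ℝ) * p.2 * (4 * Real.pi ^ 2 * u / (π.q * t) ^ 2)))) : ℝ) : ℂ) *
              ei (t * (Real.log p.2 + Real.log k - Real.log p.1 - Real.log h)) else 0

lemma Hh_eq (π : PrimChar) (Y Z : ℕ) (u t : ℝ) : Hh π Y Z u t =
    ∑ h ∈ Finset.Icc 1 Y, ∑ k ∈ Finset.Icc 1 Y,
    ((fb π.q Y h * fb π.q Y k * ((h : ℝ) * k) ^ (-(1 / 2 : ℝ)) : ℝ) : ℂ) *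
      (co π h * (starRingEnd ℂ) (co π k)) * ∑' p : ℕ × ℕ, hin π Z u h k t p := rfl

lemma ei_norm' (x : ℝ) : ‖ei x‖ = 1 := by
  unfold ei
  exact Complex.norm_exp_ofReal_mul_I x

lemma hin_summable (hSU : T_SU) (π : PrimChar) (Z : ℕ) (u : ℝ) (h k : ℕ) (t : ℝ) (hu : 0 < u)
    (ht : 0 < t) : Summable (hin π Z u h k t) := by
  have := π.q_ne
  have hq : (0 : ℝ) < π.q := by
    exact_mod_cast Nat.pos_of_ne_zero (NeZero.ne _)
  have h1 := hSU π (1 / 2) (1 / u) (by norm_num) (by positivity)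
  have h2 := hSU π (1 / 2) (4 * Real.pi ^ 2 * u / (π.q * t) ^ 2) (by norm_num) (by
    have := Real.pi_pos
    positivity)
  refine Summable.of_norm_bounded (h1.add h2) fun p => ?_
  unfold hin
  split_ifs
  · rw [norm_mul, ei_norm', mul_one, norm_mul, norm_mul, RCLike.norm_conj, Complex.norm_real,
      Real.norm_eq_abs, ← mul_add]
    apply mul_le_mul_of_nonneg_left _ (by positivity)
    rw [mul_add]
    exact abs_add_le _ _
  · rw [norm_zero]
    positivity

lemma hin_hasSum (hSU : T_SU) (A B : Cloud) (π : PrimChar) (N Z : ℕ) (u : ℝ) (h k : ℕ)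
    (hu : 0 < u) :
    HasSum (fun p => Sm A B (fun t => ((Wt N u t : ℝ) : ℂ) * hin π Z u h k t p))
      (Sm A B (fun t => ((Wt N u t : ℝ) : ℂ) * ∑' p : ℕ × ℕ, hin π Z u h k t p)) := by
  apply Sm_hasSum
  intro t
  rcases le_or_gt t 0 with ht | ht
  · rw [Wt_of_nonpos N u ht]
    simp only [ofReal_zero, zero_mul]
    exact hasSum_zero
  · exact (hin_summable hSU π Z u h k t hu ht).hasSum.mul_left _

/-- the bound for one term -/
lemma hin_bound (hFS : T_FS) (hKB : T_KB) (A B : Cloud) (π : PrimChar) (N Z : ℕ) (u : ℝ)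
    (h k : ℕ) (hu : 0 < u) (K CV CA : ℝ) (a : ℕ) (hK : 0 < K) (hCV : 0 < CV) (_hCA : 0 < CA)
    (hW : Continuous (fun t : ℝ => ((Wt N u t : ℝ) : ℂ)) ∧
      Integrable (fun t : ℝ => ((Wt N u t : ℝ) : ℂ)) ∧
      ∀ y : ℝ, ‖∫ t : ℝ, ((Wt N u t : ℝ) : ℂ) * ei (t * y)‖ ≤ K * (u / (1 + u * |y|) ^ 2))
    (hWv : ∀ κ : ℝ, 0 < κ → Continuous (fun t : ℝ => ((Wv N u κ t : ℝ) : ℂ)) ∧
      Integrable (fun t : ℝ => ((Wv N u κ t : ℝ) : ℂ)) ∧
      ∀ y : ℝ, ‖∫ t : ℝ, ((Wv N u κ t : ℝ) : ℂ) * ei (t * y)‖ ≤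
        CV * min 1 ((u ^ 2 / κ) ^ a) * (u / (1 + u * |y|) ^ 2))
    (hVA : ∀ y : ℝ, 0 < y → V y ≤ CA * y ^ (-(a : ℝ)))
    (p : ℕ × ℕ) (hp1 : 1 ≤ p.1) (hp2 : 1 ≤ p.2) :
    ‖Sm A B (fun t => ((Wt N u t : ℝ) : ℂ) * hin π Z u h k t p)‖ ≤
      (if Z < rd p.1 p.2 h k then ((p.1 : ℝ) * p.2) ^ (-(1 / 2) : ℝ) *
        KK A B u (Real.log p.2 + Real.log k - Real.log p.1 - Real.log h) else 0) *
      min (K + CV) ((K * CA + CV * ((π.q : ℝ) ^ 2 / (4 * Real.pi ^ 2)) ^ a) *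
        (u / ((p.1 : ℝ) * p.2)) ^ a) := by
  have := π.q_ne
  have hq : (0 : ℝ) < π.q := by
    exact_mod_cast Nat.pos_of_ne_zero (NeZero.ne _)
  have hpi := Real.pi_pos
  have hm : (1 : ℝ) ≤ p.1 := by exact_mod_cast hp1
  have hn : (1 : ℝ) ≤ p.2 := by exact_mod_cast hp2
  obtain ⟨x, hx⟩ : ∃ x : ℝ, x = (p.1 : ℝ) * p.2 := ⟨_, rfl⟩
  have hx0 : 0 < x := by rw [hx]; positivity
  obtain ⟨y, hy⟩ : ∃ y : ℝ, y = Real.log p.2 + Real.log k - Real.log p.1 - Real.log h := ⟨_, rfl⟩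
  obtain ⟨κ, hκ⟩ : ∃ κ : ℝ, κ = x * (4 * Real.pi ^ 2 * u / (π.q : ℝ) ^ 2) := ⟨_, rfl⟩
  have hκ0 : 0 < κ := by rw [hκ]; positivity
  rw [← hx, ← hy]
  split_ifs with hZ
  · have h1 : (fun t => ((Wt N u t : ℝ) : ℂ) * hin π Z u h k t p) =
        fun t => (co π p.1 * (starRingEnd ℂ) (co π p.2) * ((x ^ (-(1 / 2) : ℝ) : ℝ) : ℂ)) *
          (((V (x * (1 / u)) : ℝ) : ℂ) * (((Wt N u t : ℝ) : ℂ) * ei (t * y)) +
            ((Wv N u κ t : ℝ) : ℂ) * ei (t * y)) := by
      funext t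
      unfold hin
      rw [if_pos hZ, ← hx, ← hy]
      rcases le_or_gt t 0 with ht | ht
      · rw [Wt_of_nonpos N u ht]
        have : Wv N u κ t = 0 := by
          unfold Wv
          rw [if_neg (not_lt.2 ht)]
        rw [this]
        simp
      · have h2 : Wv N u κ t = Wt N u t * V (x * (4 * Real.pi ^ 2 * u / (π.q * t) ^ 2)) := by
          unfold Wv Wt
          rw [if_pos ht, if_pos ht, hκ]
          congr 2
          field_simp
        rw [h2]
        push_cast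
        ring
    rw [h1, Sm_mul, Sm_add, Sm_mul]
    have h3 := hFS A B _ K u y hW.1 hW.2.1 hu hK.le hW.2.2
    obtain ⟨v1, v2, v3⟩ := hWv κ hκ0
    have hmin0 : 0 ≤ min 1 ((u ^ 2 / κ) ^ a) := le_min zero_le_one (by positivity)
    have h4 := hFS A B _ (CV * min 1 ((u ^ 2 / κ) ^ a)) u y v1 v2 hu (by positivity) v3
    have hKK := (hKB A B u y hu).2.1
    have hV0 : 0 ≤ V (x * (1 / u)) := Pool.Agent.H2.PZ.V_nonneg _
    have hV1 : V (x * (1 / u)) ≤ 1 := Pool.Agent.H2.PZ.V_le_one _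
    have h5 : ‖((V (x * (1 / u)) : ℝ) : ℂ) * Sm A B (fun t => ((Wt N u t : ℝ) : ℂ) * ei (t * y)) +
        Sm A B (fun t => ((Wv N u κ t : ℝ) : ℂ) * ei (t * y))‖ ≤
        (V (x * (1 / u)) * K + CV * min 1 ((u ^ 2 / κ) ^ a)) * KK A B u y := by
      refine (norm_add_le _ _).trans ?_
      rw [norm_mul, Complex.norm_real, Real.norm_of_nonneg hV0]
      calc _ ≤ V (x * (1 / u)) * (K * KK A B u y) + CV * min 1 ((u ^ 2 / κ) ^ a) * KK A B u y :=
            add_le_add (mul_le_mul_of_nonneg_left h3 hV0) h4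
        _ = _ := by ring
    have h6 : V (x * (1 / u)) * K + CV * min 1 ((u ^ 2 / κ) ^ a) ≤
        min (K + CV) ((K * CA + CV * ((π.q : ℝ) ^ 2 / (4 * Real.pi ^ 2)) ^ a) * (u / x) ^ a) := by
      apply le_min
      · have h7 : V (x * (1 / u)) * K ≤ K := mul_le_of_le_one_left hK.le hV1
        have h8 : CV * min 1 ((u ^ 2 / κ) ^ a) ≤ CV :=
          mul_le_of_le_one_right hCV.le (min_le_left _ _)
        linarith
      · have h7 : V (x * (1 / u)) ≤ CA * (u / x) ^ a := by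
          have h8 := hVA (x * (1 / u)) (by positivity)
          have h9 : (x * (1 / u)) ^ (-(a : ℝ)) = (u / x) ^ a := by
            rw [Real.rpow_neg (by positivity), Real.rpow_natCast, ← inv_pow]
            congr 1
            field_simp
          rwa [h9] at h8
        have h10 : (u ^ 2 / κ) ^ a = ((π.q : ℝ) ^ 2 / (4 * Real.pi ^ 2)) ^ a * (u / x) ^ a := by
          rw [← mul_pow, hκ]
          congr 1
          field_simp
        calc V (x * (1 / u)) * K + CV * min 1 ((u ^ 2 / κ) ^ a)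
            ≤ (CA * (u / x) ^ a) * K + CV * ((u ^ 2 / κ) ^ a) :=
              add_le_add (mul_le_mul_of_nonneg_right h7 hK.le)
                (mul_le_mul_of_nonneg_left (min_le_right _ _) hCV.le)
          _ = _ := by
              rw [h10]
              ring
    rw [norm_mul, norm_mul, norm_mul, RCLike.norm_conj, Complex.norm_real,
      Real.norm_of_nonneg (by positivity : (0 : ℝ) ≤ x ^ (-(1 / 2) : ℝ))]
    have h11 : ‖co π p.1‖ * ‖co π p.2‖ * x ^ (-(1 / 2) : ℝ) ≤ x ^ (-(1 / 2) : ℝ) := by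
      have h12 : ‖co π p.1‖ * ‖co π p.2‖ ≤ 1 :=
        mul_le_one₀ (Pool.Agent.H27.PZ.co_norm π _) (norm_nonneg _)
          (Pool.Agent.H27.PZ.co_norm π _)
      exact mul_le_of_le_one_left (by positivity) h12
    have h0 : 0 ≤ (V (x * (1 / u)) * K + CV * min 1 ((u ^ 2 / κ) ^ a)) := by positivity
    calc _ ≤ x ^ (-(1 / 2) : ℝ) *
          ((V (x * (1 / u)) * K + CV * min 1 ((u ^ 2 / κ) ^ a)) * KK A B u y) :=
          mul_le_mul h11 h5 (norm_nonneg _) (by positivity)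
      _ ≤ x ^ (-(1 / 2) : ℝ) * (min (K + CV) ((K * CA + CV * ((π.q : ℝ) ^ 2 /
          (4 * Real.pi ^ 2)) ^ a) * (u / x) ^ a) * KK A B u y) := by
          apply mul_le_mul_of_nonneg_left _ (by positivity)
          exact mul_le_mul_of_nonneg_right h6 hKK
      _ = _ := by ring
  · have h1 : (fun t => ((Wt N u t : ℝ) : ℂ) * hin π Z u h k t p) = fun _ => 0 := by
      funext t
      unfold hin
      rw [if_neg hZ, mul_zero]
    rw [h1, zero_mul]
    simp [Sm]

/-- a double series with a finite block and a tail -/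
lemma series_bound2 (f : ℕ × ℕ → ℂ) (S : ℂ) (hf : HasSum f S) (s : Finset (ℕ × ℕ))
    (g : ℕ × ℕ → ℝ) (G : ℝ) (hg : HasSum g G) (hg0 : ∀ j, 0 ≤ g j)
    (hfg : ∀ j, j ∉ s → ‖f j‖ ≤ g j) :
    ‖S‖ ≤ ∑ j ∈ s, ‖f j‖ + G := by
  classical
  have h1 : HasSum (fun j => if j ∈ s then f j else 0) (∑ j ∈ s, f j) := by
    have := hasSum_sum_of_ne_finset_zero (L := SummationFilter.unconditional (ℕ × ℕ))
      (f := fun j => if j ∈ s then f j else 0) (s := s) (fun b hb => if_neg hb)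
    have e : ∑ b ∈ s, (if b ∈ s then f b else 0) = ∑ j ∈ s, f j :=
      Finset.sum_congr rfl fun j hj => if_pos hj
    rwa [e] at this
  have h2 := hf.sub h1
  have h3 : ‖S - ∑ j ∈ s, f j‖ ≤ G := by
    refine h2.norm_le_of_bounded hg fun j => ?_
    by_cases hj : j ∈ s
    · simp only [if_pos hj, sub_self, norm_zero]
      exact hg0 j
    · simp only [if_neg hj, sub_zero]
      exact hfg j hj
  have h5 : S = ∑ j ∈ s, f j + (S - ∑ j ∈ s, f j) := by ring
  rw [h5]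
  exact (norm_add_le _ _).trans (add_le_add (norm_sum_le _ _) h3)

lemma sum_comm4 (s t : Finset ℕ) (E : ℕ → ℕ → ℕ → ℕ → ℝ) :
    ∑ h ∈ s, ∑ k ∈ s, ∑ m ∈ t, ∑ n ∈ t, E m n h k =
      ∑ m ∈ t, ∑ n ∈ t, ∑ h ∈ s, ∑ k ∈ s, E m n h k := by
  calc ∑ h ∈ s, ∑ k ∈ s, ∑ m ∈ t, ∑ n ∈ t, E m n h k
      = ∑ h ∈ s, ∑ m ∈ t, ∑ k ∈ s, ∑ n ∈ t, E m n h k :=
        Finset.sum_congr rfl fun h _ => Finset.sum_comm
    _ = ∑ m ∈ t, ∑ h ∈ s, ∑ k ∈ s, ∑ n ∈ t, E m n h k := Finset.sum_comm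
    _ = ∑ m ∈ t, ∑ h ∈ s, ∑ n ∈ t, ∑ k ∈ s, E m n h k :=
        Finset.sum_congr rfl fun m _ => Finset.sum_congr rfl fun h _ => Finset.sum_comm
    _ = ∑ m ∈ t, ∑ n ∈ t, ∑ h ∈ s, ∑ k ∈ s, E m n h k :=
        Finset.sum_congr rfl fun m _ => Finset.sum_comm

theorem pf_HB (hHI : T_HI) (hFS : T_FS) (hWA : T_WA) (hWV : T_WV) (hSU : T_SU) (hKB : T_KB) :
    T_HB := by
  classical
  intro π θ η hθ hθ2 hη
  have := π.q_ne
  have hq1 : 1 ≤ π.q := Nat.one_le_iff_ne_zero.2 (NeZero.ne _)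
  have hqr : (0 : ℝ) < π.q := by exact_mod_cast hq1
  have hpi := Real.pi_pos
  obtain ⟨σ, hσ⟩ : ∃ σ : ℝ, σ = (1 - 2 * θ) / 2 := ⟨_, rfl⟩
  have hσ0 : 0 < σ := by rw [hσ]; linarith
  have hσ2 : σ < 1 / 2 := by rw [hσ]; linarith
  obtain ⟨d, hd⟩ : ∃ d : ℝ, d = min (1 / 8) (min (σ / 16) (η / 16)) := ⟨_, rfl⟩
  have hd0 : 0 < d := by
    rw [hd]
    exact lt_min (by norm_num) (lt_min (by positivity) (by positivity))
  have hd8 : d ≤ 1 / 8 := by rw [hd]; exact min_le_left _ _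
  have hdσ : d ≤ σ / 16 := by rw [hd]; exact (min_le_right _ _).trans (min_le_left _ _)
  have hdη : d ≤ η / 16 := by rw [hd]; exact (min_le_right _ _).trans (min_le_right _ _)
  obtain ⟨CH, hCH, hHI'⟩ := hHI d hd0 hd8
  obtain ⟨a₀, ha₀⟩ := exists_nat_ge (6 / σ)
  refine ⟨8, fun N hN C₁ hC₁ => ?_⟩
  obtain ⟨K, hK, hW⟩ := hWA N hN
  obtain ⟨CV, hCV, hWv⟩ := hWV N (a₀ + 2) hN
  obtain ⟨CA, hCA, hVA⟩ := Pool.Agent.H2.PZ.V_decay ((a₀ + 2 : ℕ) : ℝ) (by positivity)
  set K₁ : ℝ := K + CV with hK₁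
  set K₂ : ℝ := K * CA + CV * ((π.q : ℝ) ^ 2 / (4 * Real.pi ^ 2)) ^ (a₀ + 2) with hK₂
  have hK₁0 : 0 < K₁ := by positivity
  have hK₂0 : 0 < K₂ := by positivity
  have hS1 : Summable fun n : ℕ => 1 / (n : ℝ) ^ 2 := Real.summable_one_div_nat_pow.mpr one_lt_two
  have hS2 : Summable fun p : ℕ × ℕ => 1 / (p.1 : ℝ) ^ 2 * (1 / (p.2 : ℝ) ^ 2) :=
    hS1.mul_of_nonneg hS1 (fun n => by positivity) (fun n => by positivity)
  obtain ⟨Z2, hZ2⟩ : ∃ Z2 : ℝ, HasSum (fun p : ℕ × ℕ => 1 / (p.1 : ℝ) ^ 2 * (1 / (p.2 : ℝ) ^ 2)) Z2 :=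
    ⟨_, hS2.hasSum⟩
  have hZ20 : 0 ≤ Z2 := hZ2.nonneg fun p => by positivity
  have hl : ∀ a c : ℝ, 0 < a → 0 < c → ∀ᶠ T : ℝ in atTop, Real.log T ≤ c * T ^ a := by
    intro a c ha hc
    have h := (isLittleO_log_rpow_atTop ha).bound hc
    filter_upwards [h, eventually_gt_atTop (1 : ℝ)] with T h1 h2
    rw [Real.norm_of_nonneg (Real.log_nonneg h2.le), Real.norm_of_nonneg (by positivity)] at h1
    exact h1
  have ev : ∀ᶠ T : ℝ in atTop, (1 ≤ T ∧ 2 * K₂ * C₁ ^ (a₀ + 2) * Z2 ≤ T) ∧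
      (Real.log T ≤ (1 / (4 * (K₁ * CH))) * T ^ (η / 4) ∧
      Real.log T ≤ (1 / (2 * (K₁ * CH))) * T ^ (3 * σ / 16)) ∧ 0 < Real.log T := by
    refine ((eventually_ge_atTop _).and (eventually_ge_atTop _)).and
      (((hl _ _ (by positivity) (by positivity)).and (hl _ _ (by positivity) (by positivity))).and
        (Real.tendsto_log_atTop.eventually_gt_atTop 0))
  obtain ⟨T₀, hT₀⟩ := eventually_atTop.1 ev
  refine ⟨σ / 16, T₀, by positivity, fun T u μ ν A B hT hu1 hu2 hA hB => ?_⟩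
  obtain ⟨⟨d1, d2⟩, ⟨d3, d4⟩, d5⟩ := hT₀ T hT
  have hT0 : 0 < T := by linarith
  have hu0 : 0 < u := lt_of_lt_of_le (by positivity) hu1
  have hu1g : 1 ≤ u := (Real.one_le_rpow d1 (by linarith)).trans hu1
  set Y : ℕ := ⌊T ^ θ⌋₊ with hYdef
  set Z : ℕ := ⌊T ^ η⌋₊ with hZdef
  set X : ℕ := ⌊T ^ (1 + σ)⌋₊ with hXdef
  have hY1 : 1 ≤ Y := Nat.le_floor (by push_cast; exact Real.one_le_rpow d1 hθ.le)
  have hZ1 : 1 ≤ Z := Nat.le_floor (by push_cast; exact Real.one_le_rpow d1 hη.le)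
  have hX1 : 1 ≤ X := Nat.le_floor (by push_cast; exact Real.one_le_rpow d1 (by linarith))
  have hYle : (Y : ℝ) ≤ T ^ θ := Nat.floor_le (by positivity)
  have hXle : (X : ℝ) ≤ T ^ (1 + σ) := Nat.floor_le (by positivity)
  have hY1r : (1 : ℝ) ≤ Y := by exact_mod_cast hY1
  have hX1r : (1 : ℝ) ≤ X := by exact_mod_cast hX1
  have hZ1r : (1 : ℝ) ≤ Z := by exact_mod_cast hZ1
  set L := Lam A B μ ν with hL
  have hL0 : 0 ≤ L := Lam_nonneg A B μ ν
  have hmm0 : 0 ≤ A.m * B.m := mul_nonneg A.m_nonneg B.m_nonneg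
  have hW1 := (hW u hu0).1
  -- the block
  set s : Finset (ℕ × ℕ) := ((Finset.Icc 1 X) ×ˢ (Finset.Icc 1 X)).filter
    (fun p => p.1 * p.2 ≤ X) with hs
  set G : ℝ := (2 * (A.m * B.m) * K₂ * C₁ ^ (a₀ + 2) * (1 / T ^ 4)) * Z2 with hG
  have hG0 : 0 ≤ G := by positivity
  have hpair : ∀ h k : ℕ, ‖Sm A B (fun t => ((Wt N u t : ℝ) : ℂ) * ∑' p : ℕ × ℕ,
      hin π Z u h k t p)‖ ≤ ∑ p ∈ s, K₁ * (if Z < rd p.1 p.2 h k then
        ((p.1 : ℝ) * p.2) ^ (-(1 / 2) : ℝ) *
        KK A B u (Real.log p.2 + Real.log k - Real.log p.1 - Real.log h) else 0) + G := by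
    intro h k
    have h1 := series_bound2 _ _ (hin_hasSum hSU A B π N Z u h k hu0) s _ G
      (hZ2.mul_left (2 * (A.m * B.m) * K₂ * C₁ ^ (a₀ + 2) * (1 / T ^ 4)))
      (fun p => by positivity) (by
        intro p hp
        rcases Nat.eq_zero_or_pos p.1 with hp1 | hp1
        · have h2 : (fun t => ((Wt N u t : ℝ) : ℂ) * hin π Z u h k t p) = fun _ => 0 := by
            funext t
            unfold hin
            split_ifs
            · rw [hp1, Pool.Agent.H29.PZ.co_zero]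
              ring
            · ring
          rw [h2]
          have h3 : ‖Sm A B (fun _ => 0)‖ = 0 := by simp [Sm]
          rw [h3]
          positivity
        rcases Nat.eq_zero_or_pos p.2 with hp2 | hp2
        · have h2 : (fun t => ((Wt N u t : ℝ) : ℂ) * hin π Z u h k t p) = fun _ => 0 := by
            funext t
            unfold hin
            split_ifs
            · rw [hp2, Pool.Agent.H29.PZ.co_zero, map_zero]
              ring
            · ring
          rw [h2]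
          have h3 : ‖Sm A B (fun _ => 0)‖ = 0 := by simp [Sm]
          rw [h3]
          positivity
        have hm : (1 : ℝ) ≤ p.1 := by exact_mod_cast hp1
        have hn : (1 : ℝ) ≤ p.2 := by exact_mod_cast hp2
        obtain ⟨x, hx⟩ : ∃ x : ℝ, x = (p.1 : ℝ) * p.2 := ⟨_, rfl⟩
        have hx0 : 0 < x := by rw [hx]; positivity
        have hx1 : 1 ≤ x := by rw [hx]; nlinarith
        have hbig : T ^ (1 + σ) ≤ x := by
          have h4 : X < p.1 * p.2 := by
            by_contra hcon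
            push Not at hcon
            apply hp
            rw [hs, Finset.mem_filter, Finset.mem_product, Finset.mem_Icc, Finset.mem_Icc]
            exact ⟨⟨⟨hp1, (Nat.le_mul_of_pos_right _ hp2).trans hcon⟩,
              ⟨hp2, (Nat.le_mul_of_pos_left _ hp1).trans hcon⟩⟩, hcon⟩
          have h5 : T ^ (1 + σ) < X + 1 := Nat.lt_floor_add_one _
          have h6 : (X : ℝ) + 1 ≤ x := by
            rw [hx]
            exact_mod_cast h4
          linarith
        have h7 := hin_bound hFS hKB A B π N Z u h k hu0 K CV CA (a₀ + 2) hK hCV hCA hW1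
          (fun κ hκ => hWv u κ hu0 hκ) hVA p hp1 hp2
        rw [← hK₂, ← hK₁, ← hx] at h7
        refine h7.trans ?_
        have hKK := hKB A B u (Real.log p.2 + Real.log k - Real.log p.1 - Real.log h) hu0
        have h8 : (if Z < rd p.1 p.2 h k then x ^ (-(1 / 2) : ℝ) *
            KK A B u (Real.log p.2 + Real.log k - Real.log p.1 - Real.log h) else 0) ≤
            2 * (A.m * B.m) := by
          split_ifs
          · refine (mul_le_of_le_one_left hKK.2.1 ?_).trans hKK.2.2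
            exact Real.rpow_le_one_of_one_le_of_nonpos hx1 (by norm_num)
          · positivity
        have h9 : (u / x) ^ (a₀ + 2) ≤ C₁ ^ (a₀ + 2) * (1 / T ^ 4) * (1 / x ^ 2) := by
          have hux : u / x ≤ C₁ * T ^ (-σ) := by
            rw [div_le_iff₀ hx0]
            calc u ≤ C₁ * T := hu2
              _ = C₁ * T ^ (-σ) * T ^ (1 + σ) := by
                  rw [mul_assoc, ← Real.rpow_add hT0]
                  have : -σ + (1 + σ) = 1 := by ring
                  rw [this, Real.rpow_one]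
              _ ≤ C₁ * T ^ (-σ) * x := mul_le_mul_of_nonneg_left hbig (by positivity)
          have hpos : 0 ≤ u / x := by positivity
          calc (u / x) ^ (a₀ + 2) = (u / x) ^ a₀ * (u / x) ^ 2 := pow_add _ _ _
            _ ≤ (C₁ * T ^ (-σ)) ^ a₀ * (C₁ * T / x) ^ 2 := by
                apply mul_le_mul (pow_le_pow_left₀ hpos hux _) _ (by positivity) (by positivity)
                apply pow_le_pow_left₀ hpos
                exact div_le_div_of_nonneg_right hu2 hx0.le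
            _ ≤ (C₁ ^ a₀ * T ^ (-(6 : ℝ))) * (C₁ * T / x) ^ 2 := by
                apply mul_le_mul_of_nonneg_right _ (by positivity)
                rw [mul_pow]
                apply mul_le_mul_of_nonneg_left _ (by positivity)
                rw [← Real.rpow_natCast (T ^ (-σ)) a₀, ← Real.rpow_mul hT0.le]
                apply Real.rpow_le_rpow_of_exponent_le d1
                have h5 : 6 ≤ σ * a₀ := by
                  rw [div_le_iff₀ hσ0] at ha₀
                  linarith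
                linarith
            _ = C₁ ^ (a₀ + 2) * (1 / T ^ 4) * (1 / x ^ 2) := by
                rw [Real.rpow_neg hT0.le, show (6 : ℝ) = ((6 : ℕ) : ℝ) by norm_num,
                  Real.rpow_natCast, pow_add]
                field_simp
        calc _ ≤ (2 * (A.m * B.m)) * (K₂ * (u / x) ^ (a₀ + 2)) := by
              apply mul_le_mul h8 (min_le_right _ _) _ (by positivity)
              exact le_min hK₁0.le (by positivity)
          _ ≤ (2 * (A.m * B.m)) * (K₂ * (C₁ ^ (a₀ + 2) * (1 / T ^ 4) * (1 / x ^ 2))) := by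
              apply mul_le_mul_of_nonneg_left _ (by positivity)
              exact mul_le_mul_of_nonneg_left h9 hK₂0.le
          _ = _ := by
              rw [hx]
              field_simp)
    refine h1.trans (add_le_add ?_ le_rfl)
    apply Finset.sum_le_sum
    intro p hp
    rw [hs, Finset.mem_filter, Finset.mem_product, Finset.mem_Icc, Finset.mem_Icc] at hp
    have h7 := hin_bound hFS hKB A B π N Z u h k hu0 K CV CA (a₀ + 2) hK hCV hCA hW1
      (fun κ hκ => hWv u κ hu0 hκ) hVA p hp.1.1.1 hp.1.2.1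
    refine h7.trans ?_
    rw [mul_comm]
    apply mul_le_mul_of_nonneg_right (min_le_left _ _)
    have hKK := hKB A B u (Real.log p.2 + Real.log k - Real.log p.1 - Real.log h) hu0
    split_ifs
    · exact mul_nonneg (by positivity) hKK.2.1
    · exact le_rfl
  -- the coefficients
  have hfb : ∀ h, |fb π.q Y h| ≤ 1 := (Pool.Agent.H19.OT.pf_SB π.q Y hq1 hY1).1.le
  have hexp : Sm A B (fun t => ((Wt N u t : ℝ) : ℂ) * Hh π Y Z u t) =
      ∑ h ∈ Finset.Icc 1 Y, ∑ k ∈ Finset.Icc 1 Y,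
        (((fb π.q Y h * fb π.q Y k * ((h : ℝ) * k) ^ (-(1 / 2 : ℝ)) : ℝ) : ℂ) *
      (co π h * (starRingEnd ℂ) (co π k))) * Sm A B (fun t => ((Wt N u t : ℝ) : ℂ) *
        ∑' p : ℕ × ℕ, hin π Z u h k t p) := by
    have h1 : (fun t => ((Wt N u t : ℝ) : ℂ) * Hh π Y Z u t) = fun t =>
        ∑ h ∈ Finset.Icc 1 Y, ∑ k ∈ Finset.Icc 1 Y,
        (((fb π.q Y h * fb π.q Y k * ((h : ℝ) * k) ^ (-(1 / 2 : ℝ)) : ℝ) : ℂ) *
      (co π h * (starRingEnd ℂ) (co π k))) * (((Wt N u t : ℝ) : ℂ) *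
        ∑' p : ℕ × ℕ, hin π Z u h k t p) := by
      funext t
      rw [Hh_eq, Finset.mul_sum]
      refine Finset.sum_congr rfl fun h _ => ?_
      rw [Finset.mul_sum]
      refine Finset.sum_congr rfl fun k _ => ?_
      ring
    rw [h1, Sm_sum]
    refine Finset.sum_congr rfl fun h _ => ?_
    rw [Sm_sum]
    refine Finset.sum_congr rfl fun k _ => ?_
    rw [Sm_mul]
  have hcoef : ∀ h ∈ Finset.Icc 1 Y, ∀ k ∈ Finset.Icc 1 Y,
      ‖(((fb π.q Y h * fb π.q Y k * ((h : ℝ) * k) ^ (-(1 / 2 : ℝ)) : ℝ) : ℂ) *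
      (co π h * (starRingEnd ℂ) (co π k)))‖ ≤ ((h : ℝ) * k) ^ (-(1 / 2 : ℝ)) ∧
      ((h : ℝ) * k) ^ (-(1 / 2 : ℝ)) ≤ 1 := by
    intro h hh k hk
    rw [Finset.mem_Icc] at hh hk
    have h1 : (1 : ℝ) ≤ h := by exact_mod_cast hh.1
    have k1 : (1 : ℝ) ≤ k := by exact_mod_cast hk.1
    have hk1 : (1 : ℝ) ≤ (h : ℝ) * k := by nlinarith
    refine ⟨?_, Real.rpow_le_one_of_one_le_of_nonpos hk1 (by norm_num)⟩
    rw [norm_mul, Complex.norm_real, Real.norm_eq_abs, abs_mul, abs_mul,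
      abs_of_nonneg (by positivity : (0 : ℝ) ≤ ((h : ℝ) * k) ^ (-(1 / 2 : ℝ))), norm_mul,
      RCLike.norm_conj]
    have h2 : |fb π.q Y h| * |fb π.q Y k| ≤ 1 := mul_le_one₀ (hfb h) (abs_nonneg _) (hfb k)
    have h3 : ‖co π h‖ * ‖co π k‖ ≤ 1 := mul_le_one₀ (Pool.Agent.H27.PZ.co_norm π _)
      (norm_nonneg _) (Pool.Agent.H27.PZ.co_norm π _)
    calc |fb π.q Y h| * |fb π.q Y k| * ((h : ℝ) * k) ^ (-(1 / 2 : ℝ)) * (‖co π h‖ * ‖co π k‖)
        ≤ 1 * ((h : ℝ) * k) ^ (-(1 / 2 : ℝ)) * 1 := by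
          apply mul_le_mul _ h3 (by positivity) (by positivity)
          exact mul_le_mul_of_nonneg_right h2 (by positivity)
      _ = _ := by ring
  -- the block is bounded by (HI)
  have hblock : ∑ h ∈ Finset.Icc 1 Y, ∑ k ∈ Finset.Icc 1 Y, ((h : ℝ) * k) ^ (-(1 / 2 : ℝ)) *
      (∑ p ∈ s, K₁ * (if Z < rd p.1 p.2 h k then
        ((p.1 : ℝ) * p.2) ^ (-(1 / 2) : ℝ) *
        KK A B u (Real.log p.2 + Real.log k - Real.log p.1 - Real.log h) else 0)) ≤
      u / Real.log T * L := by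
    have h1 := hHI' A B T μ ν u X Y Z hA hB hu1g hX1 hY1 hZ1
    have h2 : ∑ h ∈ Finset.Icc 1 Y, ∑ k ∈ Finset.Icc 1 Y, ((h : ℝ) * k) ^ (-(1 / 2 : ℝ)) *
      (∑ p ∈ s, K₁ * (if Z < rd p.1 p.2 h k then
        ((p.1 : ℝ) * p.2) ^ (-(1 / 2) : ℝ) *
        KK A B u (Real.log p.2 + Real.log k - Real.log p.1 - Real.log h) else 0)) =
      K₁ * ∑ m ∈ Finset.Icc 1 X, ∑ n ∈ Finset.Icc 1 X, ∑ h ∈ Finset.Icc 1 Y,
        ∑ k ∈ Finset.Icc 1 Y,
      (if m * n ≤ X ∧ Z < rd m n h k then ((m : ℝ) * n * h * k) ^ (-(1 / 2) : ℝ) *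
        KK A B u (Real.log n + Real.log k - Real.log m - Real.log h) else 0) := by
      rw [← sum_comm4, Finset.mul_sum]
      refine Finset.sum_congr rfl fun h hh => ?_
      rw [Finset.mul_sum]
      refine Finset.sum_congr rfl fun k hk => ?_
      rw [hs, Finset.sum_filter, Finset.sum_product, Finset.mul_sum, Finset.mul_sum]
      refine Finset.sum_congr rfl fun m hm => ?_
      rw [Finset.mul_sum, Finset.mul_sum]
      refine Finset.sum_congr rfl fun n hn => ?_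
      simp only
      by_cases c1 : m * n ≤ X
      · by_cases c2 : Z < rd m n h k
        · rw [if_pos c1, if_pos c2, if_pos ⟨c1, c2⟩]
          have e1 : ((m : ℝ) * n * h * k) ^ (-(1 / 2) : ℝ) =
              ((m : ℝ) * n) ^ (-(1 / 2) : ℝ) * ((h : ℝ) * k) ^ (-(1 / 2) : ℝ) := by
            rw [← Real.mul_rpow (by positivity) (by positivity)]
            congr 1
            ring
          rw [e1]
          ring
        · rw [if_pos c1, if_neg c2, if_neg (fun c => c2 c.2)]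
          ring
      · rw [if_neg c1, if_neg (fun c => c1 c.1)]
        ring
    rw [h2]
    obtain ⟨Wx, hWx⟩ : ∃ Wx : ℝ, Wx = (X : ℝ) * Y ^ 2 := ⟨_, rfl⟩
    rw [← hWx] at h1
    have hWx1 : 1 ≤ Wx := by
      rw [hWx]
      have : (1 : ℝ) ≤ Y ^ 2 := one_le_pow₀ hY1r
      nlinarith
    have hWx0 : 0 < Wx := by linarith
    have hWle : Wx ≤ T ^ (2 - σ) := by
      rw [hWx]
      calc (X : ℝ) * Y ^ 2 ≤ T ^ (1 + σ) * (T ^ θ) ^ 2 := by
            apply mul_le_mul hXle (pow_le_pow_left₀ (by positivity) hYle 2) (by positivity)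
              (by positivity)
        _ = T ^ (2 - σ) := by
            rw [← Real.rpow_natCast (T ^ θ) 2, ← Real.rpow_mul hT0.le, ← Real.rpow_add hT0]
            congr 1
            push_cast
            rw [hσ]
            ring
    have hWd : Wx ^ d ≤ T ^ (η / 8) := by
      calc Wx ^ d ≤ (T ^ (2 - σ)) ^ d := Real.rpow_le_rpow hWx0.le hWle hd0.le
        _ = T ^ ((2 - σ) * d) := by rw [← Real.rpow_mul hT0.le]
        _ ≤ T ^ (η / 8) := Real.rpow_le_rpow_of_exponent_le d1 (by nlinarith)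
    have hW2 : Wx ^ d * Wx ^ (1 / 2 + d) ≤ T ^ (1 - σ / 4) := by
      calc Wx ^ d * Wx ^ (1 / 2 + d) = Wx ^ (1 / 2 + 2 * d) := by
            rw [← Real.rpow_add hWx0]
            congr 1
            ring
        _ ≤ (T ^ (2 - σ)) ^ (1 / 2 + 2 * d) := Real.rpow_le_rpow hWx0.le hWle (by linarith)
        _ = T ^ ((2 - σ) * (1 / 2 + 2 * d)) := by rw [← Real.rpow_mul hT0.le]
        _ ≤ T ^ (1 - σ / 4) := by
            apply Real.rpow_le_rpow_of_exponent_le d1
            nlinarith [mul_pos hσ0 hd0]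
    have hZd : (Z : ℝ) ^ (-(1 / 2) + d) ≤ 2 * T ^ (-(3 * η / 8)) := by
      have hZge : T ^ η / 2 ≤ Z := by
        have h5 : T ^ η < Z + 1 := Nat.lt_floor_add_one _
        linarith
      calc (Z : ℝ) ^ (-(1 / 2) + d) ≤ (Z : ℝ) ^ (-(3 / 8) : ℝ) :=
            Real.rpow_le_rpow_of_exponent_le hZ1r (by linarith)
        _ ≤ (T ^ η / 2) ^ (-(3 / 8) : ℝ) :=
            Real.rpow_le_rpow_of_nonpos (by positivity) hZge (by norm_num)
        _ = 2 ^ (3 / 8 : ℝ) * T ^ (-(3 * η / 8)) := by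
            rw [Real.div_rpow (by positivity) (by norm_num), ← Real.rpow_mul hT0.le,
              Real.rpow_neg (by norm_num : (0 : ℝ) ≤ 2), div_inv_eq_mul, mul_comm]
            congr 2
            ring
        _ ≤ 2 * T ^ (-(3 * η / 8)) := by
            apply mul_le_mul_of_nonneg_right _ (by positivity)
            calc (2 : ℝ) ^ (3 / 8 : ℝ) ≤ 2 ^ (1 : ℝ) :=
                  Real.rpow_le_rpow_of_exponent_le (by norm_num) (by norm_num)
              _ = 2 := Real.rpow_one 2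
    have hc1 : K₁ * CH * (Wx ^ d * (u * (Z : ℝ) ^ (-(1 / 2) + d))) ≤ u / Real.log T / 2 := by
      have h5 : Wx ^ d * (u * (Z : ℝ) ^ (-(1 / 2) + d)) ≤ 2 * u * T ^ (-(η / 4)) := by
        calc Wx ^ d * (u * (Z : ℝ) ^ (-(1 / 2) + d)) ≤
              T ^ (η / 8) * (u * (2 * T ^ (-(3 * η / 8)))) := by
              apply mul_le_mul hWd _ (by positivity) (by positivity)
              exact mul_le_mul_of_nonneg_left hZd hu0.le
          _ = 2 * u * (T ^ (η / 8) * T ^ (-(3 * η / 8))) := by ring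
          _ = 2 * u * T ^ (-(η / 4)) := by
              rw [← Real.rpow_add hT0]
              congr 2
              ring
      have h6 : Real.log T * (4 * (K₁ * CH)) ≤ T ^ (η / 4) := by
        have h7 := mul_le_mul_of_nonneg_right d3 (show 0 ≤ 4 * (K₁ * CH) by positivity)
        have h8 : 1 / (4 * (K₁ * CH)) * T ^ (η / 4) * (4 * (K₁ * CH)) = T ^ (η / 4) := by
          field_simp
        linarith
      have h9 : T ^ (-(η / 4)) * T ^ (η / 4) = 1 := by
        rw [← Real.rpow_add hT0]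
        simp
      have h10 : 0 < T ^ (-(η / 4)) := by positivity
      rw [div_div, le_div_iff₀ (by positivity)]
      calc K₁ * CH * (Wx ^ d * (u * (Z : ℝ) ^ (-(1 / 2) + d))) * (Real.log T * 2)
          ≤ K₁ * CH * (2 * u * T ^ (-(η / 4))) * (Real.log T * 2) := by
            apply mul_le_mul_of_nonneg_right _ (by positivity)
            exact mul_le_mul_of_nonneg_left h5 (by positivity)
        _ = u * (T ^ (-(η / 4)) * (Real.log T * (4 * (K₁ * CH)))) := by ring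
        _ ≤ u * (T ^ (-(η / 4)) * T ^ (η / 4)) := by
            apply mul_le_mul_of_nonneg_left _ hu0.le
            exact mul_le_mul_of_nonneg_left h6 h10.le
        _ = u := by rw [h9, mul_one]
    have hc2 : K₁ * CH * (Wx ^ d * Wx ^ (1 / 2 + d)) ≤ u / Real.log T / 2 := by
      have h6 : Real.log T * (2 * (K₁ * CH)) ≤ T ^ (3 * σ / 16) := by
        have h7 := mul_le_mul_of_nonneg_right d4 (show 0 ≤ 2 * (K₁ * CH) by positivity)
        have h8 : 1 / (2 * (K₁ * CH)) * T ^ (3 * σ / 16) * (2 * (K₁ * CH)) = T ^ (3 * σ / 16) := by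
          field_simp
        linarith
      rw [div_div, le_div_iff₀ (by positivity)]
      calc K₁ * CH * (Wx ^ d * Wx ^ (1 / 2 + d)) * (Real.log T * 2)
          ≤ K₁ * CH * T ^ (1 - σ / 4) * (Real.log T * 2) := by
            apply mul_le_mul_of_nonneg_right _ (by positivity)
            exact mul_le_mul_of_nonneg_left hW2 (by positivity)
        _ = T ^ (1 - σ / 4) * (Real.log T * (2 * (K₁ * CH))) := by ring
        _ ≤ T ^ (1 - σ / 4) * T ^ (3 * σ / 16) := mul_le_mul_of_nonneg_left h6 (by positivity)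
        _ = T ^ (1 - σ / 16) := by
            rw [← Real.rpow_add hT0]
            congr 1
            ring
        _ ≤ u := hu1
    calc _ ≤ K₁ * (CH * Wx ^ d * (u * (Z : ℝ) ^ (-(1 / 2) + d) + Wx ^ (1 / 2 + d)) * L) :=
          mul_le_mul_of_nonneg_left h1 hK₁0.le
      _ = (K₁ * CH * (Wx ^ d * (u * (Z : ℝ) ^ (-(1 / 2) + d))) +
            K₁ * CH * (Wx ^ d * Wx ^ (1 / 2 + d))) * L := by ring
      _ ≤ (u / Real.log T / 2 + u / Real.log T / 2) * L :=
          mul_le_mul_of_nonneg_right (add_le_add hc1 hc2) hL0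
      _ = _ := by ring
  have htail : ∑ h ∈ Finset.Icc 1 Y, ∑ k ∈ Finset.Icc 1 Y, G ≤ T ^ (-(1 : ℝ)) * (A.m * B.m) := by
    rw [Finset.sum_const, Finset.sum_const, Nat.card_Icc, Nat.add_sub_cancel, nsmul_eq_mul,
      nsmul_eq_mul]
    have hYT : (Y : ℝ) * Y ≤ T := by
      calc (Y : ℝ) * Y ≤ T ^ θ * T ^ θ := mul_le_mul hYle hYle (by positivity) (by positivity)
        _ = T ^ (θ + θ) := by rw [← Real.rpow_add hT0]
        _ ≤ T ^ (1 : ℝ) := Real.rpow_le_rpow_of_exponent_le d1 (by linarith)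
        _ = T := Real.rpow_one T
    calc (Y : ℝ) * ((Y : ℝ) * G) = (Y : ℝ) * Y * G := by ring
      _ ≤ T * G := mul_le_mul_of_nonneg_right hYT hG0
      _ = (2 * K₂ * C₁ ^ (a₀ + 2) * Z2) * (1 / T ^ 3 * (A.m * B.m)) := by
          rw [hG]
          field_simp
      _ ≤ T * (1 / T ^ 3 * (A.m * B.m)) := mul_le_mul_of_nonneg_right d2 (by positivity)
      _ = 1 / T ^ 2 * (A.m * B.m) := by field_simp
      _ ≤ 1 / T * (A.m * B.m) := by
          apply mul_le_mul_of_nonneg_right _ hmm0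
          exact one_div_le_one_div_of_le hT0 (le_self_pow₀ d1 (by norm_num))
      _ = _ := by rw [Real.rpow_neg_one, one_div]
  rw [hexp]
  calc _ ≤ ∑ h ∈ Finset.Icc 1 Y, ∑ k ∈ Finset.Icc 1 Y, (((h : ℝ) * k) ^ (-(1 / 2 : ℝ)) *
      (∑ p ∈ s, K₁ * (if Z < rd p.1 p.2 h k then
        ((p.1 : ℝ) * p.2) ^ (-(1 / 2) : ℝ) *
        KK A B u (Real.log p.2 + Real.log k - Real.log p.1 - Real.log h) else 0)) + G) := by
        refine (norm_sum_le _ _).trans (Finset.sum_le_sum fun h hh => ?_)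
        refine (norm_sum_le _ _).trans (Finset.sum_le_sum fun k hk => ?_)
        rw [norm_mul]
        obtain ⟨c1, c2⟩ := hcoef h hh k hk
        calc _ ≤ ((h : ℝ) * k) ^ (-(1 / 2 : ℝ)) * (∑ p ∈ s, K₁ * (if Z < rd p.1 p.2 h k then
              ((p.1 : ℝ) * p.2) ^ (-(1 / 2) : ℝ) *
              KK A B u (Real.log p.2 + Real.log k - Real.log p.1 - Real.log h) else 0) + G) :=
              mul_le_mul c1 (hpair h k) (norm_nonneg _) (by positivity)
          _ ≤ _ := by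
              rw [mul_add]
              have := mul_le_of_le_one_left hG0 c2
              linarith
    _ = ∑ h ∈ Finset.Icc 1 Y, ∑ k ∈ Finset.Icc 1 Y, ((h : ℝ) * k) ^ (-(1 / 2 : ℝ)) *
      (∑ p ∈ s, K₁ * (if Z < rd p.1 p.2 h k then
        ((p.1 : ℝ) * p.2) ^ (-(1 / 2) : ℝ) *
        KK A B u (Real.log p.2 + Real.log k - Real.log p.1 - Real.log h) else 0)) +
        ∑ h ∈ Finset.Icc 1 Y, ∑ k ∈ Finset.Icc 1 Y, G := by
        simp only [Finset.sum_add_distrib]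
    _ ≤ _ := add_le_add hblock htail

end Pool.Agent.H39.OT
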