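import Pool.Agent.H88.OT.Basic
import Pool.Agent.H27.PZ.EX
import Pool.Agent.H2.PZ.VV
import Pool.Agent.H58.MZ.SM
import Pool.Agent.H18.PZ.RC
import Pool.Agent.H29.PZ.DD

/-!
# The long smooth sum
-/

set_option autoImplicit false

open Complex MeasureTheory Set Filter

namespace Pool.Agent.H39.OT

open Pool.Agent.H88.OT
open Pool.Agent.H23.GLH (PrimChar)
open Pool.Agent.H28.MZ (ei co Bf V W SS DS Sy PP Mol dv T_VV T_SM)

/-- the smooth sum for `L` -/
noncomputable def sl (π : PrimChar) (M t : ℝ) (k : ℕ) : ℂ :=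
  co π k * (k : ℂ) ^ (-(1 / 2 + t * I : ℂ)) * ((V (k / M) : ℝ) : ℂ)

lemma norm_cpow_half {k : ℕ} (hk : k ≠ 0) (t : ℝ) :
    ‖(k : ℂ) ^ (-(1 / 2 + t * I : ℂ))‖ = (k : ℝ) ^ (-(1 / 2) : ℝ) := by
  have h := Pool.Agent.H27.PZ.cpow_line hk (1 / 2) t
  have e : (-(((1 / 2 : ℝ) : ℂ) + t * I)) = (-(1 / 2 + t * I : ℂ)) := by push_cast; ring
  rw [e] at h
  rw [h, norm_mul, Pool.Agent.H27.PZ.ei_norm, mul_one, Complex.norm_real,
    Real.norm_of_nonneg (by positivity)]

lemma sl_bound {C : ℝ} (hC : 0 < C) (hCV : ∀ y : ℝ, 0 < y → V y ≤ C * y ^ (-(4 : ℝ)))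
    (π : PrimChar) (M t : ℝ) (hM : 0 < M) (k : ℕ) :
    ‖sl π M t k‖ ≤ C * M ^ 4 * (1 / (k : ℝ) ^ 4) := by
  have hV : ∀ y : ℝ, 0 < y → 0 ≤ V y ∧ V y ≤ 1 := fun y _ =>
    ⟨Pool.Agent.H2.PZ.V_nonneg y, Pool.Agent.H2.PZ.V_le_one y⟩
  rcases Nat.eq_zero_or_pos k with hk | hk
  · rw [sl, hk, Pool.Agent.H29.PZ.co_zero, zero_mul, zero_mul, norm_zero]
    positivity
  · have h3 := Pool.Agent.H27.PZ.coef_le (x := 1 / 2) (M := M) (by norm_num) hM hV hCV hk
    have hk0 : (0 : ℝ) < k := by exact_mod_cast hk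
    rw [sl, norm_mul, norm_mul, norm_cpow_half hk.ne', Complex.norm_real,
      Real.norm_of_nonneg (hV _ (by positivity)).1, mul_assoc]
    exact (mul_le_of_le_one_left h3.1 (Pool.Agent.H27.PZ.co_norm π k)).trans h3.2

lemma sl_summable (π : PrimChar) (M t : ℝ) (hM : 0 < M) : Summable (sl π M t) := by
  obtain ⟨C, hC, hCV⟩ := Pool.Agent.H2.PZ.V_decay 4 (by norm_num)
  exact Summable.of_norm_bounded (Pool.Agent.H27.PZ.sum_four.mul_left _)
    (sl_bound hC hCV π M t hM)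

open scoped Classical in
lemma LD_hasSum (π : PrimChar) (Y : ℕ) (M t : ℝ) (hM : 0 < M) :
    HasSum (fun j : ℕ => co π j * (ec π.q Y M j : ℂ) * (j : ℂ) ^ (-(1 / 2 + t * I : ℂ)))
      ((∑' k, sl π M t k) * Bf π (fb π.q Y) Y (1 / 2 + t * I)) := by
  have hs := (sl_summable π M t hM).hasSum
  have h1 : ∀ h ∈ Finset.Icc 1 Y, HasSum (fun j : ℕ => if h ∣ j then
      co π j * ((fb π.q Y h * V ((j : ℝ) / h / M) : ℝ) : ℂ) * (j : ℂ) ^ (-(1 / 2 + t * I : ℂ))
      else 0) ((∑' k, sl π M t k) *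
        ((fb π.q Y h : ℂ) * co π h * (h : ℂ) ^ (-(1 / 2 + t * I : ℂ)))) := by
    intro h hh
    have hh1 : 1 ≤ h := (Finset.mem_Icc.1 hh).1
    have hh0 : h ≠ 0 := by omega
    have hhr : (h : ℝ) ≠ 0 := by exact_mod_cast hh0
    have hinj : Function.Injective (fun k : ℕ => h * k) := fun a b hab =>
      Nat.eq_of_mul_eq_mul_left (by omega) hab
    rw [← hinj.hasSum_iff]
    · refine (hs.mul_right ((fb π.q Y h : ℂ) * co π h * (h : ℂ) ^ (-(1 / 2 + t * I : ℂ)))).congr_fun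
        ?_
      intro k
      simp only [Function.comp]
      rw [if_pos (dvd_mul_right h k)]
      rcases Nat.eq_zero_or_pos k with hk | hk
      · rw [sl, hk, mul_zero, Pool.Agent.H29.PZ.co_zero]
        simp
      · rw [sl, Pool.Agent.H29.PZ.co_mul π hh0 hk.ne']
        have e1 : (((h * k : ℕ) : ℝ)) / h / M = (k : ℝ) / M := by
          push_cast
          field_simp
        have e2 : (((h * k : ℕ) : ℂ)) ^ (-(1 / 2 + t * I : ℂ)) =
            (h : ℂ) ^ (-(1 / 2 + t * I : ℂ)) * (k : ℂ) ^ (-(1 / 2 + t * I : ℂ)) := by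
          push_cast
          exact Complex.natCast_mul_natCast_cpow h k _
        rw [e1, e2]
        push_cast
        ring
    · intro j hj
      rw [if_neg]
      intro hd
      obtain ⟨k, rfl⟩ := hd
      exact hj ⟨k, rfl⟩
  have h2 := hasSum_sum h1
  have e3 : ∑ h ∈ Finset.Icc 1 Y, ((∑' k, sl π M t k) *
        ((fb π.q Y h : ℂ) * co π h * (h : ℂ) ^ (-(1 / 2 + t * I : ℂ)))) =
      (∑' k, sl π M t k) * Bf π (fb π.q Y) Y (1 / 2 + t * I) := by
    rw [← Finset.mul_sum, Bf]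
  rw [e3] at h2
  refine h2.congr_fun ?_
  intro j
  rw [ec]
  push_cast
  rw [Finset.mul_sum, Finset.sum_mul, Finset.sum_filter]

lemma LD_eq (π : PrimChar) (Y : ℕ) (M t : ℝ) (hM : 0 < M) :
    LD π Y M t = (∑' k, sl π M t k) * Bf π (fb π.q Y) Y (1 / 2 + t * I) :=
  (LD_hasSum π Y M t hM).tsum_eq

/-- a bound for the Gamma weight -/
lemma W_le (N : ℕ) (hN : 1 ≤ N) (u t : ℝ) (hu : 0 < u) (ht : 0 < t) :
    W N u t ≤ (N : ℝ) ^ N / Real.Gamma N ∧ W N u t ≤ (N : ℝ) ^ N / Real.Gamma N * (t / u) ^ N ∧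
      0 ≤ W N u t := by
  have hG : 0 < Real.Gamma N := Real.Gamma_pos_of_pos (by exact_mod_cast hN)
  have hz : 0 < t / u := by positivity
  have h1 : (t / u) ^ N * Real.exp (-(N * t / u)) ≤ 1 := by
    have h2 : Real.exp (-(N * t / u)) = (Real.exp (-(t / u))) ^ N := by
      rw [← Real.exp_nat_mul]
      congr 1
      ring
    rw [h2, ← mul_pow]
    apply pow_le_one₀ (by positivity)
    rw [Real.exp_neg, ← div_eq_mul_inv, div_le_one (Real.exp_pos _)]
    linarith [Real.add_one_le_exp (t / u)]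
  have h3 : Real.exp (-(N * t / u)) ≤ 1 := Real.exp_le_one_iff.2 (by
    have : 0 ≤ N * t / u := by positivity
    linarith)
  refine ⟨?_, ?_, ?_⟩
  · unfold W
    rw [mul_assoc]
    exact mul_le_of_le_one_right (by positivity) h1
  · unfold W
    exact mul_le_of_le_one_right (by positivity) h3
  · unfold W
    positivity

theorem pf_LD (hSB : T_SB) : T_LD := by
  intro π θ ε hθ hθ2 hε hε10
  have hVV : T_VV := Pool.Agent.H2.PZ.vv
  have hSM : T_SM := Pool.Agent.H58.MZ.sm hVV Pool.Agent.H18.PZ.rc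
  have := π.q_ne
  have hq1 : 1 ≤ π.q := Nat.one_le_iff_ne_zero.2 (NeZero.ne _)
  obtain ⟨T₁, hT₁1, hgr⟩ := Pool.Agent.H27.PZ.growth hSM hVV π
  obtain ⟨C, hC, hCV⟩ := Pool.Agent.H2.PZ.V_decay 4 (by norm_num)
  obtain ⟨T₂, hT₂⟩ := hSM π (ε / 2) 10 (by linarith) (by linarith) (by norm_num)
  obtain ⟨Z, hZ⟩ : ∃ Z : ℝ, Z = ∑' k : ℕ, 1 / (k : ℝ) ^ 4 := ⟨_, rfl⟩
  have hZ0 : 0 ≤ Z := hZ ▸ tsum_nonneg fun k => by positivity
  -- the function `L` on a compact set
  have hLc : Continuous fun t : ℝ => π.L (((1 / 2 : ℝ) : ℂ) + t * I) :=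
    Pool.Agent.H27.PZ.L_line_continuous π (a := 1 / 2) (by norm_num) (v := fun t => t)
      continuous_id
  obtain ⟨CL, hCL⟩ := (isCompact_Icc (a := (0 : ℝ)) (b := T₁)).exists_bound_of_continuousOn
    hLc.continuousOn
  refine ⟨60, fun N hN => ?_⟩
  have hN1 : 1 ≤ N := by omega
  set K : ℝ := (N : ℝ) ^ N / Real.Gamma N with hK
  have hG : 0 < Real.Gamma N := Real.Gamma_pos_of_pos (by exact_mod_cast hN1)
  have hK0 : 0 < K := by
    have : (0 : ℝ) < N := by exact_mod_cast hN1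
    positivity
  have ev : ∀ᶠ T : ℝ in atTop, ((1 ≤ T ∧ K ≤ T) ∧ (T₂ ≤ T ^ (1 / 2 : ℝ) ∧ 4 ≤ T ^ (ε / 2)) ∧
      |CL| + 1 + C * Z ≤ T) := by
    refine ((eventually_ge_atTop _).and (eventually_ge_atTop _)).and
      ((((tendsto_rpow_atTop (by norm_num)).eventually_ge_atTop _).and
        ((tendsto_rpow_atTop (by linarith)).eventually_ge_atTop _)).and
        (eventually_ge_atTop _))
  obtain ⟨T₀, hT₀⟩ := eventually_atTop.1 ev
  refine ⟨1 / 4, T₀, by norm_num, fun T u A B hT hu1 hu2 hA hB => ?_⟩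
  obtain ⟨⟨c1, c2⟩, ⟨c3, c4⟩, c5⟩ := hT₀ T hT
  have hT0 : 0 < T := by linarith
  have hu0 : 0 < u := lt_of_lt_of_le (by positivity) hu1
  set Y : ℕ := ⌊T ^ θ⌋₊ with hY
  set M : ℝ := T ^ (1 + ε) with hM
  have hM0 : 0 < M := by positivity
  have hYT : (Y : ℝ) ≤ T := by
    calc (Y : ℝ) ≤ T ^ θ := Nat.floor_le (by positivity)
      _ ≤ T ^ (1 : ℝ) := Real.rpow_le_rpow_of_exponent_le c1 (by linarith)
      _ = T := Real.rpow_one T
  have hfb : ∀ h, |fb π.q Y h| ≤ 1 := by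
    rcases Nat.eq_zero_or_pos Y with h0 | h0
    · intro h
      rw [h0]
      simp [fb, SF]
    · exact (hSB π.q Y hq1 h0).1.le
  have hM2 : M ≤ T ^ 2 := by
    rw [hM, ← Real.rpow_natCast T 2]
    exact Real.rpow_le_rpow_of_exponent_le c1 (by push_cast; linarith)
  have hBf : ∀ t : ℝ, ‖Bf π (fb π.q Y) Y (1 / 2 + t * I)‖ ≤ T := by
    intro t
    have h := (Pool.Agent.H27.PZ.Bf_norm π hfb Y (show (0 : ℝ) ≤ 1 / 2 by norm_num) t).trans hYT
    have e : (((1 / 2 : ℝ) : ℂ) + t * I) = (1 / 2 + t * I : ℂ) := by push_cast; ring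
    rwa [e] at h
  have hTm1 : T ^ (-(1 : ℝ)) = 1 / T := by rw [Real.rpow_neg_one, one_div]
  rw [← Sm_sub]
  apply norm_Sm_le_const
  intro i hi j hj
  set t := A.x i + B.x j with ht
  have htT : t ≤ 2 * T := by
    have h1 := (abs_le.1 (hA i hi)).2
    have h2 := (abs_le.1 (hB j hj)).2
    linarith
  rcases le_or_gt t 0 with ht0 | ht0
  · rw [Wt_of_nonpos N u ht0]
    simp only [ofReal_zero, zero_mul, sub_zero, norm_zero]
    positivity
  rw [Wt_of_pos N u ht0, ← mul_sub, norm_mul, Complex.norm_real]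
  obtain ⟨w1, w2, w3⟩ := W_le N hN1 u t hu0 ht0
  rw [Real.norm_of_nonneg w3, LD_eq π Y M t hM0, FF, ← sub_mul, norm_mul, hTm1]
  have hhalf : (((1 / 2 : ℝ) : ℂ) + t * I) = (1 / 2 + t * I : ℂ) := by push_cast; ring
  rcases le_or_gt (T ^ (1 / 2 : ℝ)) t with hbig | hsmall
  · -- large `t`
    have h1 : ‖π.L (1 / 2 + t * I) - ∑' k, sl π M t k‖ ≤ 1 / T ^ 5 := by
      have h2 := hT₂ t (1 / 2) M (c3.trans hbig) (by norm_num) le_rfl ?_ ?_
      · rw [hhalf] at h2
        refine h2.trans ?_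
        calc t ^ (-(10 : ℝ)) ≤ (T ^ (1 / 2 : ℝ)) ^ (-(10 : ℝ)) :=
              Real.rpow_le_rpow_of_nonpos (by positivity) hbig (by norm_num)
          _ = 1 / T ^ 5 := by
              rw [← Real.rpow_mul hT0.le]
              norm_num
      · calc t ^ (1 + ε / 2) ≤ (2 * T) ^ (1 + ε / 2) :=
              Real.rpow_le_rpow ht0.le htT (by linarith)
          _ = 2 ^ (1 + ε / 2) * T ^ (1 + ε / 2) := Real.mul_rpow (by norm_num) hT0.le
          _ ≤ 2 ^ (2 : ℝ) * T ^ (1 + ε / 2) := by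
              refine mul_le_mul_of_nonneg_right ?_ (by positivity)
              exact Real.rpow_le_rpow_of_exponent_le (by norm_num) (by linarith)
          _ ≤ T ^ (ε / 2) * T ^ (1 + ε / 2) := by
              refine mul_le_mul_of_nonneg_right (le_trans (le_of_eq ?_) c4) (by positivity)
              norm_num
          _ = M := by
              rw [hM, ← Real.rpow_add hT0]
              congr 1
              ring
      · calc M ≤ T ^ (3 / 2 : ℝ) := Real.rpow_le_rpow_of_exponent_le c1 (by linarith)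
          _ = (T ^ (1 / 2 : ℝ)) ^ (3 : ℝ) := by
              rw [← Real.rpow_mul hT0.le]
              norm_num
          _ ≤ t ^ (3 : ℝ) := Real.rpow_le_rpow (by positivity) hbig (by norm_num)
    calc W N u t * (‖π.L (1 / 2 + t * I) - ∑' k, sl π M t k‖ *
          ‖Bf π (fb π.q Y) Y (1 / 2 + t * I)‖) ≤ T * (1 / T ^ 5 * T) :=
          mul_le_mul (w1.trans c2) (mul_le_mul h1 (hBf t) (norm_nonneg _) (by positivity))
            (by positivity) hT0.le
      _ = 1 / T ^ 3 := by field_simp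
      _ ≤ 1 / T := one_div_le_one_div_of_le hT0 (le_self_pow₀ c1 (by norm_num))
  · -- small `t`
    have htT' : t ≤ T := by
      calc t ≤ T ^ (1 / 2 : ℝ) := hsmall.le
        _ ≤ T ^ (1 : ℝ) := Real.rpow_le_rpow_of_exponent_le c1 (by norm_num)
        _ = T := Real.rpow_one T
    have hL : ‖π.L (1 / 2 + t * I)‖ ≤ |CL| + T ^ 9 := by
      rcases le_or_gt T₁ t with h1 | h1
      · have h2 := hgr t (1 / 2) h1 (by norm_num) le_rfl
        rw [hhalf] at h2
        have h3 : t ^ 9 ≤ T ^ 9 := pow_le_pow_left₀ ht0.le htT' 9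
        have h4 := abs_nonneg CL
        linarith
      · have h2 := hCL t ⟨ht0.le, h1.le⟩
        rw [hhalf] at h2
        have h4 := le_abs_self CL
        have h5 : 0 ≤ T ^ 9 := by positivity
        linarith
    have hS : ‖∑' k, sl π M t k‖ ≤ C * Z * T ^ 8 := by
      have h1 : ‖∑' k, sl π M t k‖ ≤ C * M ^ 4 * Z := by
        rw [hZ, ← tsum_mul_left]
        exact tsum_of_norm_bounded (Pool.Agent.H27.PZ.sum_four.mul_left _).hasSum
          (sl_bound hC hCV π M t hM0)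
      refine h1.trans ?_
      have h2 : M ^ 4 ≤ (T ^ 2) ^ 4 := pow_le_pow_left₀ hM0.le hM2 4
      have h3 : (T ^ 2) ^ 4 = T ^ 8 := by ring
      rw [h3] at h2
      calc C * M ^ 4 * Z = C * Z * M ^ 4 := by ring
        _ ≤ C * Z * T ^ 8 := mul_le_mul_of_nonneg_left h2 (by positivity)
    have hdiff : ‖π.L (1 / 2 + t * I) - ∑' k, sl π M t k‖ ≤ T ^ 10 := by
      refine (norm_sub_le _ _).trans ?_
      have h1 : T ^ 8 ≤ T ^ 9 := pow_le_pow_right₀ c1 (by norm_num)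
      have h2 : (1 : ℝ) ≤ T ^ 9 := one_le_pow₀ c1
      calc ‖π.L (1 / 2 + t * I)‖ + ‖∑' k, sl π M t k‖ ≤ (|CL| + T ^ 9) + C * Z * T ^ 8 :=
            add_le_add hL hS
        _ ≤ (|CL| * T ^ 9 + T ^ 9) + C * Z * T ^ 9 := by
            have h3 : |CL| ≤ |CL| * T ^ 9 := le_mul_of_one_le_right (abs_nonneg _) h2
            have h4 : C * Z * T ^ 8 ≤ C * Z * T ^ 9 := mul_le_mul_of_nonneg_left h1 (by positivity)
            linarith
        _ = (|CL| + 1 + C * Z) * T ^ 9 := by ring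
        _ ≤ T * T ^ 9 := mul_le_mul_of_nonneg_right c5 (by positivity)
        _ = T ^ 10 := by ring
    have hW : W N u t ≤ T * (1 / T ^ 15) := by
      refine w2.trans ?_
      apply mul_le_mul c2 _ (by positivity) hT0.le
      have h1 : t / u ≤ T ^ (-(1 / 4) : ℝ) := by
        rw [div_le_iff₀ hu0]
        calc t ≤ T ^ (1 / 2 : ℝ) := hsmall.le
          _ = T ^ (-(1 / 4) : ℝ) * T ^ (1 - 1 / 4 : ℝ) := by
              rw [← Real.rpow_add hT0]
              norm_num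
          _ ≤ T ^ (-(1 / 4) : ℝ) * u := mul_le_mul_of_nonneg_left hu1 (by positivity)
      calc (t / u) ^ N ≤ (T ^ (-(1 / 4) : ℝ)) ^ N := pow_le_pow_left₀ (by positivity) h1 N
        _ ≤ (T ^ (-(1 / 4) : ℝ)) ^ 60 := by
            apply pow_le_pow_of_le_one (by positivity) _ hN
            exact Real.rpow_le_one_of_one_le_of_nonpos c1 (by norm_num)
        _ = 1 / T ^ 15 := by
            rw [← Real.rpow_natCast (T ^ (-(1 / 4) : ℝ)) 60, ← Real.rpow_mul hT0.le]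
            norm_num
    calc W N u t * (‖π.L (1 / 2 + t * I) - ∑' k, sl π M t k‖ *
          ‖Bf π (fb π.q Y) Y (1 / 2 + t * I)‖) ≤ T * (1 / T ^ 15) * (T ^ 10 * T) :=
          mul_le_mul hW (mul_le_mul hdiff (hBf t) (norm_nonneg _) (by positivity))
            (by positivity) (by positivity)
      _ = 1 / T ^ 3 := by field_simp
      _ ≤ 1 / T := one_div_le_one_div_of_le hT0 (le_self_pow₀ c1 (by norm_num))

end Pool.Agent.H39.OT
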