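import Pool.Agent.H39.OT.LD
import Pool.Agent.H3.PC.DB

/-!
# The first moment
-/

set_option autoImplicit false

open Complex MeasureTheory Set Filter

namespace Pool.Agent.H39.OT

open Pool.Agent.H88.OT
open Pool.Agent.H23.GLH (PrimChar)
open Pool.Agent.H28.MZ (ei co Bf V W SS DS Sy PP Mol dv T_VV T_SM)

lemma Sm_hasSum (A B : Cloud) {κ : Type*} (f : κ → ℝ → ℂ) (g : ℝ → ℂ)
    (h : ∀ t, HasSum (fun j => f j t) (g t)) :
    HasSum (fun j => Sm A B (f j)) (Sm A B g) := by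
  unfold Sm
  exact hasSum_sum fun i _ => hasSum_sum fun j _ => (h _).mul_left _

/-- the term of index `j` -/
noncomputable def tj (π : PrimChar) (Y N : ℕ) (M u : ℝ) (j : ℕ) (t : ℝ) : ℂ :=
  ((Wt N u t : ℝ) : ℂ) * (co π j * (ec π.q Y M j : ℂ) * (j : ℂ) ^ (-(1 / 2 + t * I : ℂ)))

lemma tj_zero (A B : Cloud) (π : PrimChar) (Y N : ℕ) (M u : ℝ) :
    Sm A B (tj π Y N M u 0) = 0 := by
  have : tj π Y N M u 0 = fun _ => 0 := by
    funext t
    rw [tj, Pool.Agent.H29.PZ.co_zero]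
    ring
  rw [this]
  simp [Sm]

lemma tj_eq (π : PrimChar) (Y N : ℕ) (M u : ℝ) {j : ℕ} (hj : 1 ≤ j) (t : ℝ) :
    tj π Y N M u j t = (co π j * (ec π.q Y M j : ℂ) * (((j : ℝ) ^ (-(1 / 2) : ℝ) : ℝ) : ℂ)) *
      (((Wt N u t : ℝ) : ℂ) * ei (t * (Real.log 1 - Real.log j))) := by
  have h := Pool.Agent.H27.PZ.cpow_line (h := j) (by omega) (1 / 2) t
  have e : (-(((1 / 2 : ℝ) : ℂ) + t * I)) = (-(1 / 2 + t * I : ℂ)) := by push_cast; ring
  rw [e] at h
  rw [tj, h, Real.log_one, zero_sub, mul_neg]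
  ring

lemma tj_norm (hFS : T_FS) (A B : Cloud) (π : PrimChar) (Y N : ℕ) (M u K : ℝ) (hu : 0 < u)
    (hK : 0 ≤ K)
    (hW : Continuous (fun t : ℝ => ((Wt N u t : ℝ) : ℂ)) ∧
      Integrable (fun t : ℝ => ((Wt N u t : ℝ) : ℂ)) ∧
      ∀ y : ℝ, ‖∫ t : ℝ, ((Wt N u t : ℝ) : ℂ) * ei (t * y)‖ ≤ K * (u / (1 + u * |y|) ^ 2))
    {j : ℕ} (hj : 1 ≤ j) :
    ‖Sm A B (tj π Y N M u j)‖ ≤ ‖co π j‖ * |ec π.q Y M j| * (j : ℝ) ^ (-(1 / 2) : ℝ) *
      (K * KK A B u (Real.log 1 - Real.log j)) := by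
  have h1 : tj π Y N M u j = fun t => (co π j * (ec π.q Y M j : ℂ) *
      (((j : ℝ) ^ (-(1 / 2) : ℝ) : ℝ) : ℂ)) *
      (((Wt N u t : ℝ) : ℂ) * ei (t * (Real.log 1 - Real.log j))) := by
    funext t
    exact tj_eq π Y N M u hj t
  rw [h1, Sm_mul, norm_mul, norm_mul, norm_mul, Complex.norm_real, Complex.norm_real,
    Real.norm_eq_abs, Real.norm_of_nonneg (by positivity : (0 : ℝ) ≤ (j : ℝ) ^ (-(1 / 2) : ℝ))]
  apply mul_le_mul_of_nonneg_left _ (by positivity)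
  exact hFS A B _ K u (Real.log 1 - Real.log j) hW.1 hW.2.1 hu hK hW.2.2

lemma dv_bound (d : ℝ) (hd : 0 < d) : ∃ C : ℝ, 1 ≤ C ∧ ∀ n : ℕ, 1 ≤ n → dv n ≤ C * (n : ℝ) ^ d := by
  obtain ⟨C, hC, h⟩ := Pool.Agent.H3.PC.DB.pf_DB d hd
  exact ⟨C, hC, fun n hn => h n hn⟩

lemma dv_nonneg (n : ℕ) : 0 ≤ dv n := by unfold dv; positivity

/-- pairs `(1, j)` -/
lemma sum_pairs (G : ℝ → ℝ) (s : Finset ℕ) (δ : ℝ) :
    ∑ p ∈ s.image (fun j : ℕ => ((1 : ℕ), j)), ((p.1 : ℝ) * p.2) ^ (-(1 / 2) + δ) *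
      G (Real.log p.1 - Real.log p.2) =
    ∑ j ∈ s, (j : ℝ) ^ (-(1 / 2) + δ) * G (Real.log 1 - Real.log j) := by
  rw [Finset.sum_image]
  · simp
  · intro a _ b _ h
    exact (Prod.mk.inj h).2

/-- the size of the coefficients for small `j` -/
lemma small_coef (C₁ CE θ T M Yl : ℝ) (j : ℕ) (hC₁ : 1 ≤ C₁) (hCE : 0 < CE) (hθ : 0 < θ)
    (hlog : 0 < Real.log T) (hj : 1 ≤ j) (hdv : dv j ≤ C₁ * (j : ℝ) ^ (1 / 16 : ℝ))
    (hY : θ / 2 * Real.log T ≤ Yl) (hM : (j : ℝ) / M ≤ 1 / Real.log T) (hM0 : 0 < M) :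
    CE * dv j * ((1 + Real.log j) ^ 2 / Yl + j / M) ≤
      CE * C₁ * (2178 / θ + 1) / Real.log T * (j : ℝ) ^ (1 / 8 : ℝ) := by
  have hj1 : (1 : ℝ) ≤ j := by exact_mod_cast hj
  have hj0 : (0 : ℝ) < j := by linarith
  have hlj : 0 ≤ Real.log j := Real.log_nonneg hj1
  have h1 : (1 : ℝ) ≤ (j : ℝ) ^ (1 / 32 : ℝ) := Real.one_le_rpow hj1 (by norm_num)
  have h2 : Real.log j ≤ 32 * (j : ℝ) ^ (1 / 32 : ℝ) := by
    have := Real.log_le_rpow_div hj0.le (show (0 : ℝ) < 1 / 32 by norm_num)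
    calc Real.log j ≤ (j : ℝ) ^ (1 / 32 : ℝ) / (1 / 32) := this
      _ = 32 * (j : ℝ) ^ (1 / 32 : ℝ) := by ring
  have h3 : (1 + Real.log j) ^ 2 ≤ 1089 * (j : ℝ) ^ (1 / 16 : ℝ) := by
    have h4 : 1 + Real.log j ≤ 33 * (j : ℝ) ^ (1 / 32 : ℝ) := by linarith
    calc (1 + Real.log j) ^ 2 ≤ (33 * (j : ℝ) ^ (1 / 32 : ℝ)) ^ 2 :=
          pow_le_pow_left₀ (by linarith) h4 2
      _ = 1089 * (j : ℝ) ^ (1 / 16 : ℝ) := by
          rw [mul_pow, ← Real.rpow_natCast ((j : ℝ) ^ (1 / 32 : ℝ)), ← Real.rpow_mul hj0.le]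
          norm_num
  have hYl : 0 < Yl := lt_of_lt_of_le (by positivity) hY
  have h5 : (1 + Real.log j) ^ 2 / Yl ≤ 2178 / θ / Real.log T * (j : ℝ) ^ (1 / 16 : ℝ) := by
    calc (1 + Real.log j) ^ 2 / Yl ≤ (1089 * (j : ℝ) ^ (1 / 16 : ℝ)) / (θ / 2 * Real.log T) :=
          div_le_div₀ (by positivity) h3 (by positivity) hY
      _ = 2178 / θ / Real.log T * (j : ℝ) ^ (1 / 16 : ℝ) := by
          field_simp
          norm_num
  have h6 : (1 : ℝ) ≤ (j : ℝ) ^ (1 / 16 : ℝ) := Real.one_le_rpow hj1 (by norm_num)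
  have h7 : (1 + Real.log j) ^ 2 / Yl + j / M ≤
      (2178 / θ + 1) / Real.log T * (j : ℝ) ^ (1 / 16 : ℝ) := by
    have h8 : 1 / Real.log T ≤ 1 / Real.log T * (j : ℝ) ^ (1 / 16 : ℝ) :=
      le_mul_of_one_le_right (by positivity) h6
    calc (1 + Real.log j) ^ 2 / Yl + j / M ≤ 2178 / θ / Real.log T * (j : ℝ) ^ (1 / 16 : ℝ) +
          1 / Real.log T * (j : ℝ) ^ (1 / 16 : ℝ) := by linarith
      _ = _ := by ring
  calc CE * dv j * ((1 + Real.log j) ^ 2 / Yl + j / M)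
      ≤ CE * (C₁ * (j : ℝ) ^ (1 / 16 : ℝ)) *
          ((2178 / θ + 1) / Real.log T * (j : ℝ) ^ (1 / 16 : ℝ)) := by
        apply mul_le_mul (mul_le_mul_of_nonneg_left hdv hCE.le) h7
        · have : 0 ≤ (j : ℝ) / M := by positivity
          positivity
        · positivity
    _ = CE * C₁ * (2178 / θ + 1) / Real.log T *
          ((j : ℝ) ^ (1 / 16 : ℝ) * (j : ℝ) ^ (1 / 16 : ℝ)) := by ring
    _ = _ := by
        rw [← Real.rpow_add hj0]
        norm_num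

/-- a block of frequencies -/
lemma block (hFS : T_FS) (hKB : T_KB) (A B : Cloud) (π : PrimChar) (Y N : ℕ) (M u K c δ D : ℝ)
    (hu : 0 < u) (hK : 0 ≤ K) (hc0 : 0 ≤ c)
    (hW : Continuous (fun t : ℝ => ((Wt N u t : ℝ) : ℂ)) ∧
      Integrable (fun t : ℝ => ((Wt N u t : ℝ) : ℂ)) ∧
      ∀ y : ℝ, ‖∫ t : ℝ, ((Wt N u t : ℝ) : ℂ) * ei (t * y)‖ ≤ K * (u / (1 + u * |y|) ^ 2))
    (s : Finset ℕ) (hs : ∀ j ∈ s, 1 ≤ j)
    (hc : ∀ j ∈ s, Nat.Coprime j π.q → |ec π.q Y M j| ≤ c * (j : ℝ) ^ δ)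
    (hD : ∑ j ∈ s, (j : ℝ) ^ (-(1 / 2) + δ) * KK A B u (Real.log 1 - Real.log j) ≤ D) :
    ∑ j ∈ s, ‖Sm A B (tj π Y N M u j)‖ ≤ c * K * D := by
  calc ∑ j ∈ s, ‖Sm A B (tj π Y N M u j)‖
      ≤ ∑ j ∈ s, c * K * ((j : ℝ) ^ (-(1 / 2) + δ) * KK A B u (Real.log 1 - Real.log j)) := by
        apply Finset.sum_le_sum
        intro j hj
        have hj1 := hs j hj
        have hj0 : (0 : ℝ) < j := by exact_mod_cast hj1
        have h1 := tj_norm hFS A B π Y N M u K hu hK hW hj1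
        have hKK := (hKB A B u (Real.log 1 - Real.log j) hu).2.1
        refine h1.trans ?_
        by_cases hcop : Nat.Coprime j π.q
        · have h2 := hc j hj hcop
          have h3 : ‖co π j‖ * |ec π.q Y M j| ≤ 1 * (c * (j : ℝ) ^ δ) :=
            mul_le_mul (Pool.Agent.H27.PZ.co_norm π j) h2 (abs_nonneg _) zero_le_one
          calc ‖co π j‖ * |ec π.q Y M j| * (j : ℝ) ^ (-(1 / 2) : ℝ) *
                (K * KK A B u (Real.log 1 - Real.log j))
              ≤ 1 * (c * (j : ℝ) ^ δ) * (j : ℝ) ^ (-(1 / 2) : ℝ) *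
                (K * KK A B u (Real.log 1 - Real.log j)) := by
                apply mul_le_mul_of_nonneg_right _ (mul_nonneg hK hKK)
                exact mul_le_mul_of_nonneg_right h3 (by positivity)
            _ = _ := by
                rw [Real.rpow_add hj0]
                ring
        · rw [Pool.Agent.H29.PZ.co_eq_zero π hcop, norm_zero, zero_mul, zero_mul, zero_mul]
          have : 0 ≤ (j : ℝ) ^ (-(1 / 2) + δ) := by positivity
          positivity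
    _ = c * K * ∑ j ∈ s, (j : ℝ) ^ (-(1 / 2) + δ) * KK A B u (Real.log 1 - Real.log j) := by
        rw [Finset.mul_sum]
    _ ≤ c * K * D := mul_le_mul_of_nonneg_left hD (by positivity)

/-- the sum of a series with two finite blocks and a tail -/
lemma series_bound (f : ℕ → ℂ) (S a : ℂ) (hf : HasSum f S) (J J' : ℕ) (h0 : f 0 = 0)
    (hJ : 1 ≤ J) (hJJ : J ≤ J') (g : ℕ → ℝ) (G : ℝ) (hg : HasSum g G) (hg0 : ∀ j, 0 ≤ g j)
    (hfg : ∀ j, J' < j → ‖f j‖ ≤ g j) :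
    ‖S - a‖ ≤ ‖f 1 - a‖ + ∑ j ∈ Finset.Icc 2 J, ‖f j‖ + ∑ j ∈ Finset.Icc (J + 1) J', ‖f j‖ + G := by
  have h1 : HasSum (fun j => if j ∈ Finset.range (J' + 1) then f j else 0)
      (∑ j ∈ Finset.range (J' + 1), f j) := by
    have := hasSum_sum_of_ne_finset_zero (L := SummationFilter.unconditional ℕ)
      (f := fun j => if j ∈ Finset.range (J' + 1) then f j else 0)
      (s := Finset.range (J' + 1)) (fun b hb => if_neg hb)
    have e : ∑ b ∈ Finset.range (J' + 1), (if b ∈ Finset.range (J' + 1) then f b else 0) =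
        ∑ j ∈ Finset.range (J' + 1), f j :=
      Finset.sum_congr rfl fun j hj => if_pos hj
    rwa [e] at this
  have h2 := hf.sub h1
  have h3 : ‖S - ∑ j ∈ Finset.range (J' + 1), f j‖ ≤ G := by
    refine h2.norm_le_of_bounded hg fun j => ?_
    by_cases hj : j ∈ Finset.range (J' + 1)
    · simp only [if_pos hj, sub_self, norm_zero]
      exact hg0 j
    · simp only [if_neg hj, sub_zero]
      apply hfg
      rw [Finset.mem_range] at hj
      omega
  have h4 : ∑ j ∈ Finset.range (J' + 1), f j =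
      f 1 + ∑ j ∈ Finset.Icc 2 J, f j + ∑ j ∈ Finset.Icc (J + 1) J', f j := by
    have e1 : Finset.range (J' + 1) = insert 0 (insert 1 (Finset.Icc 2 J ∪ Finset.Icc (J + 1) J')) := by
      ext x
      simp only [Finset.mem_range, Finset.mem_insert, Finset.mem_union, Finset.mem_Icc]
      omega
    have hd : Disjoint (Finset.Icc 2 J) (Finset.Icc (J + 1) J') := by
      rw [Finset.disjoint_left]
      intro x hx hy
      rw [Finset.mem_Icc] at hx hy
      omega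
    rw [e1, Finset.sum_insert, Finset.sum_insert, Finset.sum_union hd, h0]
    · ring
    · simp only [Finset.mem_union, Finset.mem_Icc]
      omega
    · simp only [Finset.mem_insert, Finset.mem_union, Finset.mem_Icc]
      omega
  have h5 : S - a = (S - ∑ j ∈ Finset.range (J' + 1), f j) + ((f 1 - a) +
      ∑ j ∈ Finset.Icc 2 J, f j + ∑ j ∈ Finset.Icc (J + 1) J', f j) := by
    rw [h4]
    ring
  rw [h5]
  calc _ ≤ ‖S - ∑ j ∈ Finset.range (J' + 1), f j‖ + ‖(f 1 - a) +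
      ∑ j ∈ Finset.Icc 2 J, f j + ∑ j ∈ Finset.Icc (J + 1) J', f j‖ := norm_add_le _ _
    _ ≤ G + (‖f 1 - a‖ + ∑ j ∈ Finset.Icc 2 J, ‖f j‖ + ∑ j ∈ Finset.Icc (J + 1) J', ‖f j‖) := by
        apply add_le_add h3
        refine (norm_add_le _ _).trans (add_le_add ?_ (norm_sum_le _ _))
        exact (norm_add_le _ _).trans (add_le_add le_rfl (norm_sum_le _ _))
    _ = _ := by ring

theorem pf_M1 (hLD : T_LD) (hEB : T_EB) (hFS : T_FS) (hWA : T_WA) (hDY : T_DY) (hDZ : T_DZ)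
    (hKB : T_KB) (hMA : T_MA) : T_M1 := by
  intro π θ hθ hθ2
  have := π.q_ne
  have hq1 : 1 ≤ π.q := Nat.one_le_iff_ne_zero.2 (NeZero.ne _)
  set ε : ℝ := (1 - 2 * θ) / 20 with hε
  have hε0 : 0 < ε := by rw [hε]; linarith
  have hε20 : ε ≤ 1 / 20 := by rw [hε]; linarith
  obtain ⟨N₁, hN₁⟩ := hLD π θ ε hθ hθ2 hε0 (by linarith)
  refine ⟨max N₁ 8, fun N hN C₁ hC₁ => ?_⟩
  have hNN₁ : N₁ ≤ N := (le_max_left _ _).trans hN
  have hN8 : 8 ≤ N := (le_max_right _ _).trans hN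
  obtain ⟨ε₁, T₁, hε₁, hLD'⟩ := hN₁ N hNN₁
  obtain ⟨K, hK, hW⟩ := hWA N hN8
  obtain ⟨CY, hCY, hY'⟩ := hDY (1 / 8) (by norm_num) le_rfl
  obtain ⟨CZ, hCZ, hZ'⟩ := hDZ (1 / 40) (by norm_num) (by norm_num)
  obtain ⟨hE1, hE2, CE, hCE, hE3⟩ := hEB π.q hq1
  obtain ⟨D1, hD1, hdv1⟩ := dv_bound (1 / 16) (by norm_num)
  obtain ⟨D2, hD2, hdv2⟩ := dv_bound (1 / 40) (by norm_num)
  obtain ⟨a₀, ha₀⟩ := exists_nat_ge (6 / ε)
  obtain ⟨CA, hCA, hE2'⟩ := hE2 (a₀ + 2)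
  set Kn : ℝ := (N : ℝ) ^ N / Real.Gamma N with hKn
  have hN1 : 1 ≤ N := by omega
  have hKn0 : 0 < Kn := by
    have hG : 0 < Real.Gamma N := Real.Gamma_pos_of_pos (by exact_mod_cast hN1)
    have : (0 : ℝ) < N := by exact_mod_cast hN1
    positivity
  set Z2 : ℝ := ∑' k : ℕ, 1 / (k : ℝ) ^ 2 with hZ2
  have hZ20 : 0 ≤ Z2 := tsum_nonneg fun k => by positivity
  set c1 : ℝ := CE * D1 * (2178 / θ + 1) with hc1
  have hc10 : 0 < c1 := by positivity
  have ev : ∀ᶠ T : ℝ in atTop, (T₁ ≤ T ∧ C₁ ≤ T ∧ 1 ≤ T) ∧ (2 ≤ T ^ (θ / 2) ∧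
      Real.log T ≤ 1 * T ^ (1 / 2 : ℝ)) ∧ (Real.log T ≤ 1 * T ^ (9 / 160 : ℝ) ∧
      Real.log T ≤ 1 * T ^ (1 / 50 : ℝ)) ∧ 0 < Real.log T := by
    have hl : ∀ a : ℝ, 0 < a → ∀ᶠ T : ℝ in atTop, Real.log T ≤ 1 * T ^ a := by
      intro a ha
      have h := (isLittleO_log_rpow_atTop ha).bound (show (0 : ℝ) < 1 by norm_num)
      filter_upwards [h, eventually_gt_atTop (1 : ℝ)] with T h1 h2
      rw [Real.norm_of_nonneg (Real.log_nonneg h2.le), Real.norm_of_nonneg (by positivity)] at h1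
      exact h1
    refine ((eventually_ge_atTop _).and ((eventually_ge_atTop _).and
      (eventually_ge_atTop _))).and
      ((((tendsto_rpow_atTop (by positivity)).eventually_ge_atTop _).and
        (hl _ (by norm_num))).and (((hl _ (by norm_num)).and (hl _ (by norm_num))).and
        (Real.tendsto_log_atTop.eventually_gt_atTop 0)))
  obtain ⟨T₀, hT₀⟩ := eventually_atTop.1 ev
  refine ⟨4 + 4 * (CE * Kn) + c1 * K * (2 * CY) + D2 * K * (2 * CZ) + 8 * (CA * D1 * K * Z2),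
    min ε₁ (1 / 10), T₀, by positivity, lt_min hε₁ (by norm_num),
    fun T u μ ν A B hT hu1 hu2 hA hB => ?_⟩
  obtain ⟨⟨d1, d2, d3⟩, ⟨d4, d5⟩, ⟨d6, d7⟩, d8⟩ := hT₀ T hT
  rw [one_mul] at d5 d6 d7
  have hT0 : 0 < T := by linarith
  have hu1' : T ^ (9 / 10 : ℝ) ≤ u := by
    refine le_trans (Real.rpow_le_rpow_of_exponent_le d3 ?_) hu1
    have := min_le_right ε₁ (1 / 10)
    linarith
  have hu1'' : T ^ (1 - ε₁) ≤ u := by
    refine le_trans (Real.rpow_le_rpow_of_exponent_le d3 ?_) hu1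
    have := min_le_left ε₁ (1 / 10)
    linarith
  have hu0 : 0 < u := lt_of_lt_of_le (by positivity) hu1'
  have hu1g : 1 ≤ u := (Real.one_le_rpow d3 (by norm_num)).trans hu1'
  have huT2 : u ≤ T ^ (2 : ℝ) := by
    rw [show (2 : ℝ) = ((2 : ℕ) : ℝ) by norm_num, Real.rpow_natCast, sq]
    exact hu2.trans (mul_le_mul_of_nonneg_right d2 hT0.le)
  set Y : ℕ := ⌊T ^ θ⌋₊ with hYdef
  set M : ℝ := T ^ (1 + ε) with hM
  have hM0 : 0 < M := by positivity
  have hMT : T ≤ M := by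
    nth_rewrite 1 [← Real.rpow_one T]
    exact Real.rpow_le_rpow_of_exponent_le d3 (by linarith)
  have hM1 : 1 ≤ M := d3.trans hMT
  have hTθ : 2 * T ^ (θ / 2) ≤ T ^ θ := by
    calc 2 * T ^ (θ / 2) ≤ T ^ (θ / 2) * T ^ (θ / 2) :=
          mul_le_mul_of_nonneg_right d4 (by positivity)
      _ = T ^ θ := by
          rw [← Real.rpow_add hT0]
          congr 1
          ring
  have hY2 : 2 ≤ Y := by
    apply Nat.le_floor
    push_cast
    linarith
  have hY1 : 1 ≤ Y := by omega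
  have hYle : (Y : ℝ) ≤ T ^ θ := Nat.floor_le (by positivity)
  have hYlog : θ / 2 * Real.log T ≤ Real.log Y := by
    rw [← Real.log_rpow hT0]
    apply Real.log_le_log (by positivity)
    have h1 : T ^ θ < Y + 1 := Nat.lt_floor_add_one _
    have h2 : (1 : ℝ) ≤ T ^ (θ / 2) := by linarith
    linarith
  -- the error terms
  set L := Lam A B μ ν with hL
  have hL0 : 0 ≤ L := Lam_nonneg A B μ ν
  have hmm : A.m * B.m ≤ (2 * T + 2) * L := (hMA A B T μ ν d3 hA hB).2.1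
  have hmm0 : 0 ≤ A.m * B.m := mul_nonneg A.m_nonneg B.m_nonneg
  set P := u / Real.log T * L with hP
  have hP0 : 0 ≤ P := by positivity
  have hlogu : Real.log T ≤ u := by
    refine d5.trans (le_trans ?_ hu1')
    exact Real.rpow_le_rpow_of_exponent_le d3 (by norm_num)
  have hLP : L ≤ P := by
    rw [hP]
    apply le_mul_of_one_le_left hL0
    rw [one_le_div d8]
    exact hlogu
  have hTmm : T ^ (-(1 : ℝ)) * (A.m * B.m) ≤ 4 * P := by
    have h1 : T ^ (-(1 : ℝ)) * (A.m * B.m) ≤ T ^ (-(1 : ℝ)) * ((2 * T + 2) * L) :=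
      mul_le_mul_of_nonneg_left hmm (by positivity)
    have h2 : T ^ (-(1 : ℝ)) * ((2 * T + 2) * L) ≤ 4 * L := by
      rw [Real.rpow_neg_one, inv_mul_le_iff₀ hT0]
      nlinarith
    linarith
  have hTm1 : T ^ (-(1 : ℝ)) = 1 / T := by rw [Real.rpow_neg_one, one_div]
  -- the long sum
  have hA' : ∀ i ∈ A.I, |A.x i| ≤ T := hA.le
  have hB' : ∀ j ∈ B.I, |B.x j| ≤ T := hB.le
  have e1 := hLD' T u A B d1 hu1'' huT2 hA' hB'
  rw [← hYdef, ← hM] at e1
  have hsum : HasSum (fun j => Sm A B (tj π Y N M u j))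
      (Sm A B (fun t => ((Wt N u t : ℝ) : ℂ) * LD π Y M t)) := by
    apply Sm_hasSum
    intro t
    have h1 := LD_hasSum π Y M t hM0
    rw [← LD_eq π Y M t hM0] at h1
    exact h1.mul_left _
  set J : ℕ := ⌊T ^ (1 / 8 : ℝ)⌋₊ with hJ
  set J' : ℕ := ⌊T ^ (1 + θ + 2 * ε)⌋₊ with hJ'
  have hJ1 : 1 ≤ J := Nat.le_floor (by
    push_cast
    exact Real.one_le_rpow d3 (by norm_num))
  have hJJ : J ≤ J' := Nat.floor_le_floor
    (Real.rpow_le_rpow_of_exponent_le d3 (by linarith))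
  -- the tail
  have hMY : M * Y ≤ T ^ (1 + θ + ε) := by
    calc M * Y ≤ M * T ^ θ := mul_le_mul_of_nonneg_left hYle hM0.le
      _ = T ^ (1 + θ + ε) := by
          rw [hM, ← Real.rpow_add hT0]
          congr 1
          ring
  have hW1 := (hW u hu0).1
  have htail : ∀ j, J' < j → ‖Sm A B (tj π Y N M u j)‖ ≤
      (2 * (CA * D1 * K) * (1 / T * (A.m * B.m))) * (1 / (j : ℝ) ^ 2) := by
    intro j hj
    have hj1 : 1 ≤ j := by omega
    have hj1r : (1 : ℝ) ≤ j := by exact_mod_cast hj1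
    have hj0 : (0 : ℝ) < j := by linarith
    have hjT : T ^ (1 + θ + 2 * ε) ≤ j := by
      have h1 : T ^ (1 + θ + 2 * ε) < J' + 1 := Nat.lt_floor_add_one _
      have h2 : (J' : ℝ) + 1 ≤ j := by exact_mod_cast hj
      linarith
    have h1 := tj_norm hFS A B π Y N M u K hu0 hK.le hW1 hj1
    refine h1.trans ?_
    have h2 := hE2' Y M j hY1 hM0 hj1
    have h3 : M * Y / j ≤ T ^ (-ε) := by
      rw [div_le_iff₀ hj0]
      calc M * Y ≤ T ^ (1 + θ + ε) := hMY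
        _ = T ^ (-ε) * T ^ (1 + θ + 2 * ε) := by
            rw [← Real.rpow_add hT0]
            congr 1
            ring
        _ ≤ T ^ (-ε) * j := mul_le_mul_of_nonneg_left hjT (by positivity)
    have h4 : (M * Y / j) ^ (a₀ + 2) ≤ 1 / T ^ 2 * (1 / (j : ℝ) ^ 2) := by
      have hpos : 0 ≤ M * Y / j := by positivity
      calc (M * Y / j) ^ (a₀ + 2) = (M * Y / j) ^ a₀ * (M * Y / j) ^ 2 := pow_add _ _ _
        _ ≤ (T ^ (-ε)) ^ a₀ * (T ^ (2 : ℝ) / j) ^ 2 := by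
            apply mul_le_mul (pow_le_pow_left₀ hpos h3 _) _ (by positivity) (by positivity)
            apply pow_le_pow_left₀ hpos
            apply div_le_div_of_nonneg_right _ hj0.le
            exact hMY.trans (Real.rpow_le_rpow_of_exponent_le d3 (by linarith))
        _ ≤ T ^ (-(6 : ℝ)) * (T ^ (2 : ℝ) / j) ^ 2 := by
            apply mul_le_mul_of_nonneg_right _ (by positivity)
            rw [← Real.rpow_natCast (T ^ (-ε)) a₀, ← Real.rpow_mul hT0.le]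
            apply Real.rpow_le_rpow_of_exponent_le d3
            have h5 : 6 ≤ ε * a₀ := by
              rw [div_le_iff₀ hε0] at ha₀
              linarith
            linarith
        _ = 1 / T ^ 2 * (1 / (j : ℝ) ^ 2) := by
            rw [Real.rpow_neg hT0.le, show (6 : ℝ) = ((6 : ℕ) : ℝ) by norm_num, Real.rpow_natCast,
              show (2 : ℝ) = ((2 : ℕ) : ℝ) by norm_num, Real.rpow_natCast]
            field_simp
    have h5 : dv j * (j : ℝ) ^ (-(1 / 2) : ℝ) ≤ D1 := by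
      calc dv j * (j : ℝ) ^ (-(1 / 2) : ℝ) ≤ (D1 * (j : ℝ) ^ (1 / 16 : ℝ)) *
            (j : ℝ) ^ (-(1 / 2) : ℝ) := mul_le_mul_of_nonneg_right (hdv1 j hj1) (by positivity)
        _ = D1 * (j : ℝ) ^ (1 / 16 + -(1 / 2) : ℝ) := by
            rw [mul_assoc, ← Real.rpow_add hj0]
        _ ≤ D1 * 1 := by
            apply mul_le_mul_of_nonneg_left _ (by linarith)
            exact Real.rpow_le_one_of_one_le_of_nonpos hj1r (by norm_num)
        _ = D1 := mul_one _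
    have hKK := hKB A B u (Real.log 1 - Real.log j) hu0
    have hdv0 := dv_nonneg j
    have h6 : ‖co π j‖ * |ec π.q Y M j| ≤ CA * dv j * (1 / T ^ 2 * (1 / (j : ℝ) ^ 2)) := by
      calc ‖co π j‖ * |ec π.q Y M j| ≤ 1 * |ec π.q Y M j| :=
            mul_le_mul_of_nonneg_right (Pool.Agent.H27.PZ.co_norm π j) (abs_nonneg _)
        _ ≤ CA * dv j * (M * Y / j) ^ (a₀ + 2) := by rw [one_mul]; exact h2
        _ ≤ _ := mul_le_mul_of_nonneg_left h4 (by positivity)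
    have hTT : 1 / T ^ 2 ≤ 1 / T := one_div_le_one_div_of_le hT0 (le_self_pow₀ d3 (by norm_num))
    calc ‖co π j‖ * |ec π.q Y M j| * (j : ℝ) ^ (-(1 / 2) : ℝ) *
          (K * KK A B u (Real.log 1 - Real.log j))
        ≤ (CA * dv j * (1 / T ^ 2 * (1 / (j : ℝ) ^ 2))) * (j : ℝ) ^ (-(1 / 2) : ℝ) *
          (K * (2 * (A.m * B.m))) := by
          apply mul_le_mul
          · exact mul_le_mul_of_nonneg_right h6 (by positivity)
          · exact mul_le_mul_of_nonneg_left hKK.2.2 hK.le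
          · exact mul_nonneg hK.le hKK.2.1
          · positivity
      _ = (dv j * (j : ℝ) ^ (-(1 / 2) : ℝ)) * (1 / T ^ 2) *
          (CA * K * (2 * (A.m * B.m)) * (1 / (j : ℝ) ^ 2)) := by ring
      _ ≤ D1 * (1 / T) * (CA * K * (2 * (A.m * B.m)) * (1 / (j : ℝ) ^ 2)) := by
          apply mul_le_mul_of_nonneg_right _ (by positivity)
          exact mul_le_mul h5 hTT (by positivity) (by linarith)
      _ = _ := by ring
  have hS2 : HasSum (fun k : ℕ => 1 / (k : ℝ) ^ 2) Z2 :=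
    (Real.summable_one_div_nat_pow.2 (by norm_num)).hasSum
  have key := series_bound _ _ ((SR A B (Wt N u) : ℝ) : ℂ) hsum J J' (tj_zero A B π Y N M u)
    hJ1 hJJ _ _ (hS2.mul_left (2 * (CA * D1 * K) * (1 / T * (A.m * B.m))))
    (fun j => by positivity) htail
  -- the first term
  have hfirst : ‖Sm A B (tj π Y N M u 1) - ((SR A B (Wt N u) : ℝ) : ℂ)‖ ≤ 4 * (CE * Kn) * P := by
    have h1 : tj π Y N M u 1 = fun t => ((ec π.q Y M 1 : ℝ) : ℂ) * ((Wt N u t : ℝ) : ℂ) := by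
      funext t
      rw [tj_eq π Y N M u le_rfl t]
      have h2 : co π 1 = 1 := by simp [co]
      rw [h2]
      simp [ei]
    rw [h1, Sm_mul, Sm_ofReal]
    have h3 : ((ec π.q Y M 1 : ℝ) : ℂ) * ((SR A B (Wt N u) : ℝ) : ℂ) -
        ((SR A B (Wt N u) : ℝ) : ℂ) = (((ec π.q Y M 1 - 1) * SR A B (Wt N u) : ℝ) : ℂ) := by
      push_cast
      ring
    rw [h3, Complex.norm_real, Real.norm_eq_abs, abs_mul]
    have h4 : |ec π.q Y M 1 - 1| ≤ CE / T :=
      (hE3 Y M hY2 hM1).1.trans (div_le_div_of_nonneg_left hCE.le hT0 hMT)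
    have h5 : |SR A B (Wt N u)| ≤ Kn * (A.m * B.m) := by
      rw [abs_of_nonneg (SR_nonneg A B fun i _ j _ => Wt_nonneg N u _ hu0), ← SR_const]
      apply SR_le
      intro i _ j _
      rcases le_or_gt (A.x i + B.x j) 0 with h | h
      · rw [Wt_of_nonpos N u h]
        exact hKn0.le
      · rw [Wt_of_pos N u h]
        exact (W_le N hN1 u _ hu0 h).1
    calc |ec π.q Y M 1 - 1| * |SR A B (Wt N u)| ≤ CE / T * (Kn * (A.m * B.m)) :=
          mul_le_mul h4 h5 (abs_nonneg _) (by positivity)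
      _ = CE * Kn * (T ^ (-(1 : ℝ)) * (A.m * B.m)) := by
          rw [hTm1]
          ring
      _ ≤ CE * Kn * (4 * P) := mul_le_mul_of_nonneg_left hTmm (by positivity)
      _ = _ := by ring
  -- block (a)
  have hblocka : ∑ j ∈ Finset.Icc 2 J, ‖Sm A B (tj π Y N M u j)‖ ≤ c1 * K * (2 * CY) * P := by
    have hJle : (J : ℝ) ≤ T ^ (1 / 8 : ℝ) := Nat.floor_le (by positivity)
    have hZ21 : 1 ≤ T ^ (1 / 8 : ℝ) := Real.one_le_rpow d3 (by norm_num)
    have h1 := hY' A B T μ ν u 1 (T ^ (1 / 8 : ℝ)) ((Finset.Icc 2 J).image fun j => ((1 : ℕ), j))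
      hA hB hu1g le_rfl hZ21 (by
        intro p hp
        rw [Finset.mem_image] at hp
        obtain ⟨j, hj, rfl⟩ := hp
        rw [Finset.mem_Icc] at hj
        have hjr : (j : ℝ) ≤ J := by exact_mod_cast hj.2
        have hj1r : (1 : ℝ) ≤ j := by exact_mod_cast (by omega : 1 ≤ j)
        refine ⟨le_rfl, by omega, Nat.coprime_one_left j, ?_, ?_⟩
        · simpa using hj1r
        · simpa using hjr.trans hJle)
    rw [sum_pairs (fun z => KK A B u z)] at h1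
    have hcoef : ∀ j ∈ Finset.Icc 2 J, Nat.Coprime j π.q →
        |ec π.q Y M j| ≤ c1 / Real.log T * (j : ℝ) ^ (1 / 8 : ℝ) := by
      intro j hj hcop
      rw [Finset.mem_Icc] at hj
      refine ((hE3 Y M hY2 hM1).2 j hj.1 hcop).trans ?_
      refine small_coef D1 CE θ T M (Real.log Y) j hD1 hCE hθ d8 (by omega) (hdv1 j (by omega))
        hYlog ?_ hM0
      rw [div_le_div_iff₀ hM0 d8, one_mul]
      have hjr : (j : ℝ) ≤ T ^ (1 / 8 : ℝ) := le_trans (by exact_mod_cast hj.2) hJle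
      calc (j : ℝ) * Real.log T ≤ T ^ (1 / 8 : ℝ) * T ^ (1 / 2 : ℝ) :=
            mul_le_mul hjr d5 d8.le (by positivity)
        _ ≤ T ^ (1 : ℝ) := by
            rw [← Real.rpow_add hT0]
            exact Real.rpow_le_rpow_of_exponent_le d3 (by norm_num)
        _ = T := Real.rpow_one T
        _ ≤ M := hMT
    have h2 := block hFS hKB A B π Y N M u K (c1 / Real.log T) (1 / 8) _ hu0 hK.le (by positivity)
      hW1 (Finset.Icc 2 J) (fun j hj => by rw [Finset.mem_Icc] at hj; omega) hcoef h1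
    refine h2.trans ?_
    rw [Real.one_rpow, mul_one]
    have h3 : (T ^ (1 / 8 : ℝ)) ^ (3 / 4 : ℝ) ≤ u := by
      rw [← Real.rpow_mul hT0.le]
      refine le_trans (Real.rpow_le_rpow_of_exponent_le d3 ?_) hu1'
      norm_num
    calc c1 / Real.log T * K * (CY * (u + (T ^ (1 / 8 : ℝ)) ^ (3 / 4 : ℝ)) * L)
        ≤ c1 / Real.log T * K * (CY * (u + u) * L) := by gcongr
      _ = _ := by
          rw [hP]
          ring
  -- block (b)
  have hblockb : ∑ j ∈ Finset.Icc (J + 1) J', ‖Sm A B (tj π Y N M u j)‖ ≤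
      D2 * K * (2 * CZ) * P := by
    have hJle : (J' : ℝ) ≤ T ^ (1 + θ + 2 * ε) := Nat.floor_le (by positivity)
    have hZ21 : 1 ≤ T ^ (1 / 8 : ℝ) := Real.one_le_rpow d3 (by norm_num)
    have h1 := hZ' A B T μ ν u (T ^ (1 / 8 : ℝ)) (T ^ (1 + θ + 2 * ε))
      ((Finset.Icc (J + 1) J').image fun j => ((1 : ℕ), j))
      hA hB hu1g hZ21 (Real.rpow_le_rpow_of_exponent_le d3 (by linarith)) (by
        intro p hp
        rw [Finset.mem_image] at hp
        obtain ⟨j, hj, rfl⟩ := hp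
        rw [Finset.mem_Icc] at hj
        have hjr : (j : ℝ) ≤ J' := by exact_mod_cast hj.2
        have hjl : T ^ (1 / 8 : ℝ) ≤ j := by
          have h2 : T ^ (1 / 8 : ℝ) < J + 1 := Nat.lt_floor_add_one _
          have h3 : (J : ℝ) + 1 ≤ j := by exact_mod_cast hj.1
          linarith
        refine ⟨le_rfl, by omega, Nat.coprime_one_left j, ?_, ?_⟩
        · simpa using hjl
        · simpa using hjr.trans hJle)
    rw [sum_pairs (fun z => KK A B u z)] at h1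
    have hcoef : ∀ j ∈ Finset.Icc (J + 1) J', Nat.Coprime j π.q →
        |ec π.q Y M j| ≤ D2 * (j : ℝ) ^ (1 / 40 : ℝ) := by
      intro j hj _
      rw [Finset.mem_Icc] at hj
      exact (hE1 Y M j hY1 hM0 (by omega)).trans (hdv2 j (by omega))
    have h2 := block hFS hKB A B π Y N M u K D2 (1 / 40) _ hu0 hK.le (by positivity)
      hW1 (Finset.Icc (J + 1) J') (fun j hj => by rw [Finset.mem_Icc] at hj; omega) hcoef h1
    refine h2.trans ?_
    have h3 : (T ^ (1 / 8 : ℝ)) ^ (-(1 / 2) + 2 * (1 / 40) : ℝ) ≤ 1 / Real.log T := by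
      rw [← Real.rpow_mul hT0.le, le_div_iff₀ d8]
      calc T ^ ((1 / 8 : ℝ) * (-(1 / 2) + 2 * (1 / 40))) * Real.log T ≤
            T ^ (-(9 / 160) : ℝ) * T ^ (9 / 160 : ℝ) := by
            apply mul_le_mul _ d6 d8.le (by positivity)
            apply Real.rpow_le_rpow_of_exponent_le d3
            norm_num
        _ = 1 := by
            rw [← Real.rpow_add hT0]
            norm_num
    have h4 : (T ^ (1 + θ + 2 * ε)) ^ (1 / 2 + 2 * (1 / 40) : ℝ) ≤ u / Real.log T := by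
      rw [← Real.rpow_mul hT0.le, le_div_iff₀ d8]
      calc T ^ ((1 + θ + 2 * ε) * (1 / 2 + 2 * (1 / 40) : ℝ)) * Real.log T ≤
            T ^ (88 / 100 : ℝ) * T ^ (1 / 50 : ℝ) := by
            apply mul_le_mul _ d7 d8.le (by positivity)
            apply Real.rpow_le_rpow_of_exponent_le d3
            nlinarith
        _ = T ^ (9 / 10 : ℝ) := by
            rw [← Real.rpow_add hT0]
            norm_num
        _ ≤ u := hu1'
    calc D2 * K * (CZ * (u * (T ^ (1 / 8 : ℝ)) ^ (-(1 / 2) + 2 * (1 / 40) : ℝ) +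
          (T ^ (1 + θ + 2 * ε)) ^ (1 / 2 + 2 * (1 / 40) : ℝ)) * L)
        ≤ D2 * K * (CZ * (u * (1 / Real.log T) + u / Real.log T) * L) := by gcongr
      _ = _ := by
          rw [hP]
          ring
  have htl : 2 * (CA * D1 * K) * (1 / T * (A.m * B.m)) * Z2 ≤ 8 * (CA * D1 * K * Z2) * P := by
    calc 2 * (CA * D1 * K) * (1 / T * (A.m * B.m)) * Z2
        = 2 * (CA * D1 * K * Z2) * (T ^ (-(1 : ℝ)) * (A.m * B.m)) := by
          rw [hTm1]
          ring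
      _ ≤ 2 * (CA * D1 * K * Z2) * (4 * P) := mul_le_mul_of_nonneg_left hTmm (by positivity)
      _ = _ := by ring
  have hfin : ‖Sm A B (fun t => ((Wt N u t : ℝ) : ℂ) * FF π Y t) -
      ((SR A B (Wt N u) : ℝ) : ℂ)‖ ≤
      T ^ (-(1 : ℝ)) * (A.m * B.m) + (4 * (CE * Kn) * P + c1 * K * (2 * CY) * P +
        D2 * K * (2 * CZ) * P + 8 * (CA * D1 * K * Z2) * P) := by
    have h1 : Sm A B (fun t => ((Wt N u t : ℝ) : ℂ) * FF π Y t) - ((SR A B (Wt N u) : ℝ) : ℂ) =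
        (Sm A B (fun t => ((Wt N u t : ℝ) : ℂ) * FF π Y t) -
          Sm A B (fun t => ((Wt N u t : ℝ) : ℂ) * LD π Y M t)) +
        (Sm A B (fun t => ((Wt N u t : ℝ) : ℂ) * LD π Y M t) - ((SR A B (Wt N u) : ℝ) : ℂ)) := by
      ring
    rw [h1]
    refine (norm_add_le _ _).trans (add_le_add e1 (key.trans ?_))
    linarith
  refine hfin.trans ?_
  have h9 : (4 + 4 * (CE * Kn) + c1 * K * (2 * CY) + D2 * K * (2 * CZ) +
      8 * (CA * D1 * K * Z2)) * (u / Real.log T) * L =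
      4 * P + (4 * (CE * Kn) * P + c1 * K * (2 * CY) * P +
        D2 * K * (2 * CZ) * P + 8 * (CA * D1 * K * Z2) * P) := by
    rw [hP]
    ring
  rw [h9]
  linarith

end Pool.Agent.H39.OT
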